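import Pool.Agent.Lib_helper53.OFP.RS

set_option autoImplicit false

namespace Pool.Agent.OneFar

open Finset

section

variable {α : Type} [Fintype α] [DecidableEq α] {g : ℕ}

/-- the number of the functions that avoid the value `z` on `Ω` -/
theorem card_avoid (z : Fin g) (Ω : Finset α) :
    (Finset.univ.filter fun b : α → Fin g => ∀ a ∈ Ω, b a ≠ z).card * g ^ Ω.card =
      (g - 1) ^ Ω.card * g ^ Fintype.card α := by
  have h1 : (Finset.univ.filter fun b : α → Fin g => ∀ a ∈ Ω, b a ≠ z) =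
      Fintype.piFinset fun a => if a ∈ Ω then Finset.univ.erase z else Finset.univ := by
    ext b
    simp only [Finset.mem_filter, Finset.mem_univ, true_and, Fintype.mem_piFinset]
    refine forall_congr' fun a => ?_
    by_cases h : a ∈ Ω
    · simp [h]
    · simp [h]
  rw [h1, Fintype.card_piFinset]
  have h2 : ∀ a : α, (if a ∈ Ω then Finset.univ.erase z else Finset.univ : Finset (Fin g)).card =
      if a ∈ Ω then g - 1 else g := by
    intro a
    split_ifs
    · rw [Finset.card_erase_of_mem (Finset.mem_univ _), Finset.card_univ, Fintype.card_fin]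
    · rw [Finset.card_univ, Fintype.card_fin]
  rw [Finset.prod_congr rfl fun a _ => h2 a, Finset.prod_ite, Finset.prod_const, Finset.prod_const]
  have h3 : (Finset.univ.filter fun a => a ∈ Ω) = Ω := by ext; simp
  have h4 : (Finset.univ.filter fun a => a ∉ Ω) = Ωᶜ := by ext; simp
  rw [h3, h4, mul_assoc, ← pow_add]
  congr 2
  rw [Finset.card_compl]
  exact Nat.sub_add_cancel (Finset.card_le_univ Ω)

theorem card_avoid_le (z : Fin g) (Ω : Finset α) {κ : ℕ} (hκ : κ ≤ Ω.card) :
    (Finset.univ.filter fun b : α → Fin g => ∀ a ∈ Ω, b a ≠ z).card * g ^ κ ≤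
      (g - 1) ^ κ * g ^ Fintype.card α := by
  obtain ⟨Ω', hs, rfl⟩ := Finset.exists_subset_card_eq hκ
  rw [← card_avoid z Ω']
  refine Nat.mul_le_mul_right _ (Finset.card_le_card fun b hb => ?_)
  rw [Finset.mem_filter] at hb ⊢
  exact ⟨hb.1, fun a ha => hb.2 a (hs ha)⟩

/-- the union bound over the certificates -/
theorem union_bound {P : Type} [Fintype P] {κ Z : ℕ} (z : Fin g) (G : Finset (α → Fin g))
    (Ω : P → Finset α) (hP : Fintype.card P ≤ Z)
    (hG : ∀ b ∈ G, ∃ p, κ ≤ (Ω p).card ∧ ∀ a ∈ Ω p, b a ≠ z) :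
    G.card * g ^ κ ≤ Z * ((g - 1) ^ κ * g ^ Fintype.card α) := by
  classical
  have h1 : G ⊆ (Finset.univ.filter fun p : P => κ ≤ (Ω p).card).biUnion
      fun p => Finset.univ.filter fun b : α → Fin g => ∀ a ∈ Ω p, b a ≠ z := by
    intro b hb
    obtain ⟨p, hp, hp'⟩ := hG b hb
    rw [Finset.mem_biUnion]
    exact ⟨p, Finset.mem_filter.2 ⟨Finset.mem_univ _, hp⟩,
      Finset.mem_filter.2 ⟨Finset.mem_univ _, hp'⟩⟩
  calc G.card * g ^ κ ≤ (∑ p ∈ Finset.univ.filter fun p : P => κ ≤ (Ω p).card,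
        (Finset.univ.filter fun b : α → Fin g => ∀ a ∈ Ω p, b a ≠ z).card) * g ^ κ :=
        Nat.mul_le_mul_right _ ((Finset.card_le_card h1).trans Finset.card_biUnion_le)
    _ = ∑ p ∈ Finset.univ.filter fun p : P => κ ≤ (Ω p).card,
        (Finset.univ.filter fun b : α → Fin g => ∀ a ∈ Ω p, b a ≠ z).card * g ^ κ :=
        Finset.sum_mul _ _ _
    _ ≤ ∑ _p ∈ Finset.univ.filter fun p : P => κ ≤ (Ω p).card,
        (g - 1) ^ κ * g ^ Fintype.card α :=
        Finset.sum_le_sum fun p hp => card_avoid_le z _ (Finset.mem_filter.1 hp).2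
    _ = (Finset.univ.filter fun p : P => κ ≤ (Ω p).card).card *
        ((g - 1) ^ κ * g ^ Fintype.card α) := by rw [Finset.sum_const, smul_eq_mul]
    _ ≤ Z * ((g - 1) ^ κ * g ^ Fintype.card α) := by
        refine Nat.mul_le_mul_right _ (le_trans (Finset.card_filter_le _ _) ?_)
        rwa [Finset.card_univ]

end

theorem bernoulli_low {t : ℕ} (ht : 0 < t) : (2 * t) ^ t ≤ 2 * (2 * t - 1) ^ t := by
  have h0 : (0 : ℝ) < t := by exact_mod_cast ht
  have h1 : 1 + (t : ℝ) * (-(1 / (2 * t))) ≤ (1 + -(1 / (2 * (t : ℝ)))) ^ t := by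
    refine one_add_mul_le_pow ?_ t
    have : 1 / (2 * (t : ℝ)) ≤ 1 := by
      rw [div_le_one (by positivity)]
      have : (1 : ℝ) ≤ t := by exact_mod_cast ht
      linarith
    linarith
  have h2 : 1 + (t : ℝ) * (-(1 / (2 * t))) = 1 / 2 := by
    field_simp
    ring
  rw [h2] at h1
  have h3 : ((2 * t - 1 : ℕ) : ℝ) = (2 * t) * (1 + -(1 / (2 * (t : ℝ)))) := by
    rw [Nat.cast_sub (by omega)]
    push_cast
    field_simp
    ring
  have h4 : ((2 * t : ℕ) : ℝ) ^ t ≤ 2 * ((2 * t - 1 : ℕ) : ℝ) ^ t := by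
    rw [h3, mul_pow]
    push_cast
    have : (0 : ℝ) < (2 * t) ^ t := by positivity
    nlinarith
  exact_mod_cast h4

theorem bernoulli_up {g : ℕ} (hg : 2 ≤ g) : 2 * (g - 1) ^ g ≤ g ^ g := by
  obtain ⟨h, rfl⟩ : ∃ h, g = h + 1 := ⟨g - 1, by omega⟩
  have hh : 1 ≤ h := by omega
  rw [Nat.add_sub_cancel]
  have h1 : h ^ (h + 1) + (h + 1) * h ^ h * 1 ≤ (h + 1) ^ (h + 1) := by
    have h2 := one_add_mul_le_pow (R := ℝ) (a := 1 / (h : ℝ)) (by
      have : (0 : ℝ) ≤ 1 / (h : ℝ) := by positivity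
      linarith) (h + 1)
    have h0 : (0 : ℝ) < h := by exact_mod_cast hh
    have h3 : ((h : ℝ) + 1) ^ (h + 1) = (1 + 1 / (h : ℝ)) ^ (h + 1) * (h : ℝ) ^ (h + 1) := by
      rw [← mul_pow]
      congr 1
      field_simp
    have h4 : (h : ℝ) ^ (h + 1) + (h + 1) * (h : ℝ) ^ h * 1 ≤ ((h : ℝ) + 1) ^ (h + 1) := by
      rw [h3]
      calc (h : ℝ) ^ (h + 1) + (h + 1) * (h : ℝ) ^ h * 1 =
            (1 + ((h + 1 : ℕ) : ℝ) * (1 / (h : ℝ))) * (h : ℝ) ^ (h + 1) := by
              push_cast
              field_simp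
              ring
        _ ≤ _ := mul_le_mul_of_nonneg_right h2 (by positivity)
    exact_mod_cast h4
  have h5 : h ^ (h + 1) = h * h ^ h := by rw [pow_succ]; ring
  have h6 : h * h ^ h ≤ (h + 1) * h ^ h := Nat.mul_le_mul_right _ (by omega)
  rw [mul_one] at h1
  omega

section

variable {ι κ E : Type} [Fintype ι] [Fintype κ] [Fintype E] [DecidableEq ι] [DecidableEq E] {t : ℕ}

/-- the `c` whose sets are disjoint from the set number `j` -/
def dis (A : κ → Finset E) (z : Fin (2 * t)) (b : ι × E → Fin (2 * t)) (j : ι) : Finset κ :=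
  Finset.univ.filter fun c => ∀ e ∈ A c, b (j, e) ≠ z

theorem many_good (ht : 0 < t) (A : κ → Finset E) (hA : ∀ c, (A c).card = t) (z : Fin (2 * t)) :
    (2 * t) ^ Fintype.card (ι × E) ≤
      4 * (Finset.univ.filter fun b : ι × E → Fin (2 * t) =>
        Fintype.card ι * Fintype.card κ ≤ 4 * ∑ j, (dis A z b j).card).card := by
  classical
  set G := Finset.univ.filter fun b : ι × E → Fin (2 * t) =>
        Fintype.card ι * Fintype.card κ ≤ 4 * ∑ j, (dis A z b j).card with hG
  rcases Nat.eq_zero_or_pos (Fintype.card ι * Fintype.card κ) with h0 | h0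
  · have h1 : G = Finset.univ := by
      rw [hG]
      refine Finset.filter_true_of_mem fun b _ => ?_
      rw [h0]; exact Nat.zero_le _
    rw [h1, Finset.card_univ, Fintype.card_fun, Fintype.card_fin]
    omega
  -- every pair is disjoint for half of the `b`
  have hpair : ∀ (j : ι) (c : κ), (2 * t) ^ Fintype.card (ι × E) ≤
      2 * (Finset.univ.filter fun b : ι × E → Fin (2 * t) => ∀ e ∈ A c, b (j, e) ≠ z).card := by
    intro j c
    have h1 : (Finset.univ.filter fun b : ι × E → Fin (2 * t) => ∀ e ∈ A c, b (j, e) ≠ z) =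
        Finset.univ.filter fun b : ι × E → Fin (2 * t) =>
          ∀ a ∈ (A c).image fun e => (j, e), b a ≠ z := by
      ext b
      simp
    have h2 : ((A c).image fun e => (j, e)).card = t := by
      rw [Finset.card_image_of_injective _ fun x y h => (Prod.ext_iff.1 h).2, hA c]
    have h3 := card_avoid z ((A c).image fun e => (j, e))
    rw [← h1, h2] at h3
    refine Nat.le_of_mul_le_mul_right (c := (2 * t) ^ t) ?_ (by positivity)
    calc (2 * t) ^ Fintype.card (ι × E) * (2 * t) ^ t ≤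
          (2 * t) ^ Fintype.card (ι × E) * (2 * (2 * t - 1) ^ t) :=
            Nat.mul_le_mul_left _ (bernoulli_low ht)
      _ = 2 * ((2 * t - 1) ^ t * (2 * t) ^ Fintype.card (ι × E)) := by ring
      _ = 2 * (Finset.univ.filter fun b : ι × E → Fin (2 * t) => ∀ e ∈ A c, b (j, e) ≠ z).card *
          (2 * t) ^ t := by rw [← h3]; ring
  have hsum : Fintype.card ι * Fintype.card κ * (2 * t) ^ Fintype.card (ι × E) ≤
      2 * ∑ b : ι × E → Fin (2 * t), ∑ j, (dis A z b j).card := by
    have h1 : ∑ b : ι × E → Fin (2 * t), ∑ j, (dis A z b j).card =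
        ∑ j : ι, ∑ c : κ,
          (Finset.univ.filter fun b : ι × E → Fin (2 * t) => ∀ e ∈ A c, b (j, e) ≠ z).card := by
      rw [Finset.sum_comm]
      refine Finset.sum_congr rfl fun j _ => ?_
      simp only [dis, Finset.card_filter]
      exact Finset.sum_comm
    rw [h1, Finset.mul_sum]
    calc Fintype.card ι * Fintype.card κ * (2 * t) ^ Fintype.card (ι × E) =
          ∑ _j : ι, ∑ _c : κ, (2 * t) ^ Fintype.card (ι × E) := by
            simp only [Finset.sum_const, Finset.card_univ, smul_eq_mul]; ring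
      _ ≤ ∑ j : ι, 2 * ∑ c : κ, (Finset.univ.filter fun b : ι × E → Fin (2 * t) =>
            ∀ e ∈ A c, b (j, e) ≠ z).card := by
            refine Finset.sum_le_sum fun j _ => ?_
            rw [Finset.mul_sum]
            exact Finset.sum_le_sum fun c _ => hpair j c
  have hup : 4 * ∑ b : ι × E → Fin (2 * t), ∑ j, (dis A z b j).card ≤
      4 * (G.card * (Fintype.card ι * Fintype.card κ)) +
        (2 * t) ^ Fintype.card (ι × E) * (Fintype.card ι * Fintype.card κ) := by
    have h1 : ∀ b : ι × E → Fin (2 * t), 4 * ∑ j, (dis A z b j).card ≤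
        4 * (if b ∈ G then Fintype.card ι * Fintype.card κ else 0) +
          Fintype.card ι * Fintype.card κ := by
      intro b
      split_ifs with hb
      · have h2 : ∑ j, (dis A z b j).card ≤ Fintype.card ι * Fintype.card κ := by
          calc ∑ j, (dis A z b j).card ≤ ∑ _j : ι, Fintype.card κ :=
                Finset.sum_le_sum fun j _ => Finset.card_le_univ _
            _ = _ := by rw [Finset.sum_const, Finset.card_univ, smul_eq_mul]
        omega
      · have h2 : ¬ Fintype.card ι * Fintype.card κ ≤ 4 * ∑ j, (dis A z b j).card := by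
          intro h
          exact hb (Finset.mem_filter.2 ⟨Finset.mem_univ _, h⟩)
        omega
    rw [Finset.mul_sum]
    refine (Finset.sum_le_sum fun b _ => h1 b).trans ?_
    rw [Finset.sum_add_distrib, ← Finset.mul_sum, ← Finset.sum_filter, Finset.sum_const,
      Finset.sum_const, Finset.card_univ, Fintype.card_fun, Fintype.card_fin, smul_eq_mul,
      smul_eq_mul, Finset.filter_mem_eq_inter, Finset.univ_inter]
  refine Nat.le_of_mul_le_mul_left (c := Fintype.card ι * Fintype.card κ) ?_ h0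
  have e1 : Fintype.card ι * Fintype.card κ * (4 * G.card) =
    4 * (G.card * (Fintype.card ι * Fintype.card κ)) := by ring
  have e2 : (2 * t) ^ Fintype.card (ι × E) * (Fintype.card ι * Fintype.card κ) =
    Fintype.card ι * Fintype.card κ * (2 * t) ^ Fintype.card (ι × E) := by ring
  rw [e1]
  rw [e2] at hup
  omega

theorem many_rows (A : κ → Finset E) (z : Fin (2 * t)) (b : ι × E → Fin (2 * t))
    (h : Fintype.card ι * Fintype.card κ ≤ 4 * ∑ j, (dis A z b j).card) (hκ : 0 < Fintype.card κ) :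
    Fintype.card ι ≤
      8 * (Finset.univ.filter fun j : ι => Fintype.card κ ≤ 8 * (dis A z b j).card).card := by
  classical
  set J := Finset.univ.filter fun j : ι => Fintype.card κ ≤ 8 * (dis A z b j).card with hJ
  have h1 : ∀ j : ι, 8 * (dis A z b j).card ≤ 8 * (if j ∈ J then Fintype.card κ else 0) +
      Fintype.card κ := by
    intro j
    split_ifs with hj
    · have := Finset.card_le_univ (dis A z b j)
      omega
    · have h2 : ¬ Fintype.card κ ≤ 8 * (dis A z b j).card := by
        intro h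
        exact hj (Finset.mem_filter.2 ⟨Finset.mem_univ _, h⟩)
      omega
  have h2 : 8 * ∑ j, (dis A z b j).card ≤ 8 * (J.card * Fintype.card κ) +
      Fintype.card ι * Fintype.card κ := by
    rw [Finset.mul_sum]
    refine (Finset.sum_le_sum fun j _ => h1 j).trans ?_
    rw [Finset.sum_add_distrib, ← Finset.mul_sum, ← Finset.sum_filter, Finset.sum_const,
      Finset.sum_const, Finset.card_univ, smul_eq_mul, smul_eq_mul, Finset.filter_mem_eq_inter,
      Finset.univ_inter]
  refine Nat.le_of_mul_le_mul_right (c := Fintype.card κ) ?_ hκ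
  have e1 : 8 * J.card * Fintype.card κ = 8 * (J.card * Fintype.card κ) := by ring
  rw [e1]
  omega

/-- the counting argument: certificates for all good `b` are many -/
theorem counting {P : Type} [Fintype P] (ht : 0 < t) (A : κ → Finset E)
    (hA : ∀ c, (A c).card = t) (z : Fin (2 * t)) (hκ : 0 < Fintype.card κ)
    {s Z : ℕ} (hP : Fintype.card P ≤ Z) (Ω : P → Finset (ι × E))
    (h : ∀ b : ι × E → Fin (2 * t), Fintype.card ι ≤
      8 * (Finset.univ.filter fun j : ι => Fintype.card κ ≤ 8 * (dis A z b j).card).card →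
      ∃ p, 2 * t * s ≤ (Ω p).card ∧ ∀ a ∈ Ω p, b a ≠ z) : 2 ^ s ≤ 4 * Z := by
  classical
  have h1 := many_good (ι := ι) ht A hA z
  set G := Finset.univ.filter fun b : ι × E → Fin (2 * t) =>
        Fintype.card ι * Fintype.card κ ≤ 4 * ∑ j, (dis A z b j).card with hG
  have h2 := union_bound z G Ω hP fun b hb =>
    h b (many_rows A z b (Finset.mem_filter.1 hb).2 hκ)
  have h3 : 2 ^ s * (2 * t - 1) ^ (2 * t * s) ≤ (2 * t) ^ (2 * t * s) := by
    rw [pow_mul (2 * t - 1) (2 * t) s, pow_mul (2 * t) (2 * t) s, ← mul_pow]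
    exact Nat.pow_le_pow_left (bernoulli_up (show 2 ≤ 2 * t by omega)) s
  have hpos : 0 < (2 * t - 1) ^ (2 * t * s) := Nat.pow_pos (by omega)
  have hpos2 : 0 < (2 * t) ^ Fintype.card (ι × E) := by positivity
  refine Nat.le_of_mul_le_mul_right (c := (2 * t - 1) ^ (2 * t * s) *
    (2 * t) ^ Fintype.card (ι × E)) ?_ (Nat.mul_pos hpos hpos2)
  calc 2 ^ s * ((2 * t - 1) ^ (2 * t * s) * (2 * t) ^ Fintype.card (ι × E)) =
        (2 ^ s * (2 * t - 1) ^ (2 * t * s)) * (2 * t) ^ Fintype.card (ι × E) := by ring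
    _ ≤ (2 * t) ^ (2 * t * s) * (4 * G.card) := Nat.mul_le_mul h3 h1
    _ = 4 * (G.card * (2 * t) ^ (2 * t * s)) := by ring
    _ ≤ 4 * (Z * ((2 * t - 1) ^ (2 * t * s) * (2 * t) ^ Fintype.card (ι × E))) :=
        Nat.mul_le_mul_left _ h2
    _ = _ := by ring

end

end Pool.Agent.OneFar
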