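import Pool.Agent.Lib_helper53.OFP.Greedy
import Pool.Agent.Lib_helper53.OFP.Count

set_option autoImplicit false

namespace Pool.Agent.OneFar

open Finset

/-- the words which are read, the last one first -/
def run {S W : ℕ} (pr : List (Fin W) → Fin S) (m : Fin S → Fin W) : ℕ → List (Fin W)
  | 0 => []
  | n + 1 => m (pr (run pr m n)) :: run pr m n

theorem run_congr {S W : ℕ} (pr : List (Fin W) → Fin S) (m m' : Fin S → Fin W) :
    ∀ n, (∀ s < n, m (pr (run pr m s)) = m' (pr (run pr m s))) → run pr m n = run pr m' n := by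
  intro n
  induction n with
  | zero => intro _; rfl
  | succ n ih =>
    intro h
    have h1 := ih fun s hs => h s (by omega)
    have h2 := h n (by omega)
    simp only [run]
    rw [← h1, h2]

/-- a certificate: the addresses and the contents of few words -/
theorem certify {κ ι E : Type} [Fintype ι] [Fintype E] {R W T kt : ℕ} (A : κ → Finset E)
    (pr : κ → ι → List (Fin W) → Fin R) (out : κ → ι → List (Fin W) → Bool)
    (m0 : Fin R → Fin W) :
    ∃ Ω : (Fin kt → Fin R × Fin W) → Finset (ι × E), ∀ (m : Fin R → Fin W) (K : Finset (Fin R)),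
      K.Nonempty → K.card ≤ kt → ∃ p,
        (∀ j e c, e ∈ A c → (∀ s < T, pr c j (run (pr c j) m s) ∈ K) →
          out c j (run (pr c j) m T) = true → (j, e) ∈ Ω p) ∧
        (∀ a ∈ Ω p, ∃ c, a.2 ∈ A c ∧ out c a.1 (run (pr c a.1) m T) = true) := by
  classical
  let Kp : (Fin kt → Fin R × Fin W) → Finset (Fin R) := fun p => Finset.univ.image fun i => (p i).1
  let mp : (Fin kt → Fin R × Fin W) → Fin R → Fin W := fun p r =>
    if h : ∃ i, (p i).1 = r then (p h.choose).2 else m0 r
  refine ⟨fun p => Finset.univ.filter fun a => ∃ c, a.2 ∈ A c ∧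
    (∀ s < T, pr c a.1 (run (pr c a.1) (mp p) s) ∈ Kp p) ∧
    out c a.1 (run (pr c a.1) (mp p) T) = true, ?_⟩
  intro m K hK hKc
  obtain ⟨k0, hk0⟩ := hK
  let e := K.equivFin
  let φ : Fin kt → Fin R := fun i => if h : i.1 < K.card then (e.symm ⟨i.1, h⟩).1 else k0
  have hφK : ∀ i, φ i ∈ K := by
    intro i
    simp only [φ]
    split_ifs with h
    · exact (e.symm ⟨i.1, h⟩).2
    · exact hk0
  have hφs : ∀ r ∈ K, ∃ i, φ i = r := by
    intro r hr
    refine ⟨⟨(e ⟨r, hr⟩).1, lt_of_lt_of_le (e ⟨r, hr⟩).2 hKc⟩, ?_⟩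
    simp only [φ]
    rw [dif_pos (e ⟨r, hr⟩).2]
    simp
  let p : Fin kt → Fin R × Fin W := fun i => (φ i, m (φ i))
  have hKp : Kp p = K := by
    ext r
    simp only [Kp, Finset.mem_image, Finset.mem_univ, true_and, p]
    constructor
    · rintro ⟨i, rfl⟩; exact hφK i
    · exact hφs r
  have hmp : ∀ r ∈ K, mp p r = m r := by
    intro r hr
    have h : ∃ i, (p i).1 = r := hφs r hr
    simp only [mp]
    rw [dif_pos h]
    have h2 : φ h.choose = r := h.choose_spec
    change m (φ h.choose) = m r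
    rw [h2]
  refine ⟨p, ?_, ?_⟩
  · intro j x c hx hs ho
    have h1 : ∀ n ≤ T, run (pr c j) m n = run (pr c j) (mp p) n := by
      intro n hn
      exact run_congr _ _ _ n fun s hsn => (hmp _ (hs s (by omega))).symm
    rw [Finset.mem_filter]
    refine ⟨Finset.mem_univ _, c, hx, ?_, ?_⟩
    · intro s hsT
      change pr c j (run (pr c j) (mp p) s) ∈ Kp p
      rw [hKp, ← h1 s hsT.le]
      exact hs s hsT
    · change out c j (run (pr c j) (mp p) T) = true
      rw [← h1 T le_rfl]
      exact ho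
  · intro a ha
    rw [Finset.mem_filter] at ha
    obtain ⟨-, c, hx, hs, ho⟩ := ha
    rw [hKp] at hs
    have h1 : run (pr c a.1) (mp p) T = run (pr c a.1) m T :=
      run_congr _ _ _ T fun s hsT => hmp _ (hs s hsT)
    refine ⟨c, hx, ?_⟩
    rw [← h1]
    exact ho

/-- all levels of near probes -/
theorem levels {ι κ : Type} [DecidableEq ι] [DecidableEq κ] {R : ℕ} (x : ℕ → κ → ι → Fin R)
    (Near : Finset (Fin R)) {X P d m : ℕ} (hX : Near.card ≤ X) (h1 : 4 * (X + 1) ≤ P * d)
    (hP : 2 ≤ P) (hd : 0 < d) (J : Finset ι) (hJ : J.card ≤ m) (I : ι → Finset κ) :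
    ∀ (T μ : ℕ), 0 < μ → (∀ j ∈ J, P ^ T * μ ≤ (I j).card) →
      ∃ (C : Finset (Fin R)) (J' : Finset ι) (I' : ι → Finset κ), C.card ≤ T * (2 * m + 1) ∧
        J' ⊆ J ∧ (J \ J').card ≤ T * d ∧ (∀ j, I' j ⊆ I j) ∧ (∀ j ∈ J', μ ≤ (I' j).card) ∧
        ∀ s < T, ∀ j, ∀ c ∈ I' j, x s c j ∈ Near → x s c j ∈ C := by
  classical
  intro T
  induction T with
  | zero =>
    intro μ _ hI
    refine ⟨∅, J, I, by simp, Finset.Subset.refl _, by simp, fun _ => Finset.Subset.refl _, ?_, ?_⟩
    · intro j hj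
      simpa using hI j hj
    · intro s hs
      omega
  | succ T ih =>
    intro μ hμ hI
    obtain ⟨C, J', I', hC, hJ', hJJ, hI', hμ', hx⟩ := ih (P * μ) (by positivity) fun j hj => by
      have := hI j hj
      rwa [pow_succ, mul_assoc] at this
    let y : κ → ι → Option (Fin R) := fun c j => if x T c j ∈ Near then some (x T c j) else none
    have hy : ∀ j ∈ J', ∀ c ∈ I' j, y c j ∈ Finset.insertNone Near := by
      intro j _ c _
      simp only [y]
      split_ifs with h
      · exact Finset.some_mem_insertNone.2 h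
      · exact Finset.none_mem_insertNone
    obtain ⟨C1, hC1, J'', hJ'', hd', hg, hcard⟩ := level J' I' y (Finset.insertNone Near) hy
      (P * μ) μ d (X + 1) hμ' (Nat.mul_le_mul_right _ hP)
      (by rw [Finset.card_insertNone]; omega) hd (by positivity)
    have hC1c : C1.card ≤ 2 * m + 1 := by
      have hpos : 0 < P * μ * d := by positivity
      have hJ'm : J'.card ≤ m := (Finset.card_le_card hJ').trans hJ
      refine Nat.le_of_mul_le_mul_right (c := P * μ * d) ?_ hpos
      calc C1.card * (P * μ * d) ≤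
            J'.card * (P * μ * d) + 4 * μ * J'.card * (X + 1) + P * μ * d := hcard
        _ = J'.card * (P * μ * d) + J'.card * (μ * (4 * (X + 1))) + P * μ * d := by ring
        _ ≤ m * (P * μ * d) + m * (μ * (P * d)) + P * μ * d := by gcongr
        _ = (2 * m + 1) * (P * μ * d) := by ring
    refine ⟨C ∪ Finset.eraseNone C1, J'', fun j => (I' j).filter fun c => y c j ∈ C1, ?_,
      hJ''.trans hJ', ?_, fun j => (Finset.filter_subset _ _).trans (hI' j), hg, ?_⟩
    · refine (Finset.card_union_le _ _).trans ?_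
      have h2 : (Finset.eraseNone C1).card ≤ C1.card := Finset.card_eraseNone_le C1
      have h3 : (T + 1) * (2 * m + 1) = T * (2 * m + 1) + (2 * m + 1) := by ring
      omega
    · have h2 : J \ J'' ⊆ (J \ J') ∪ (J' \ J'') := by
        intro j hj
        rw [Finset.mem_sdiff] at hj
        by_cases h3 : j ∈ J'
        · exact Finset.mem_union_right _ (Finset.mem_sdiff.2 ⟨h3, hj.2⟩)
        · exact Finset.mem_union_left _ (Finset.mem_sdiff.2 ⟨hj.1, h3⟩)
      refine (Finset.card_le_card h2).trans ((Finset.card_union_le _ _).trans ?_)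
      have h3 : (T + 1) * d = T * d + d := by ring
      omega
    · intro s hs j c hc hN
      rw [Finset.mem_filter] at hc
      rcases Nat.lt_succ_iff_lt_or_eq.1 hs with h | h
      · exact Finset.mem_union_left _ (hx s h j c hc.1 hN)
      · subst h
        refine Finset.mem_union_right _ (Finset.mem_eraseNone.2 ?_)
        have h2 := hc.2
        simp only [y] at h2
        rwa [if_pos hN] at h2

section

variable {q : ℕ} [Fact q.Prime] {ι : Type} [Fintype ι] [DecidableEq ι]

theorem core {t k T R W X P d μ Λ : ℕ} (ht0 : 0 < t) (ht : t ≤ q) (hk : 4 * (16 * Λ * k) ≤ t)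
    (pr : (Fin k → ZMod q) → ι → List (Fin W) → Fin R)
    (out : (Fin k → ZMod q) → ι → List (Fin W) → Bool)
    (mem : (ι × (Fin t × ZMod q) → Fin (2 * t)) → Fin R → Fin W) (z : Fin (2 * t))
    (hcor : ∀ b c j, out c j (run (pr c j) (mem b) T) = true ↔ ∀ e ∈ gr t c, b (j, e) ≠ z)
    (Near : (ι × (Fin t × ZMod q) → Fin (2 * t)) → Finset (Fin R)) (hX : ∀ b, (Near b).card ≤ X)
    (Bad : (ι × (Fin t × ZMod q) → Fin (2 * t)) → Finset ((Fin k → ZMod q) × ι))
    (hBad : ∀ b, 256 * (Bad b).card ≤ q ^ k * q ^ k)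
    (hfar : ∀ b c j, (c, j) ∉ Bad b → ∀ s < T, ∀ s' < T,
      pr c j (run (pr c j) (mem b) s) ∉ Near b → pr c j (run (pr c j) (mem b) s') ∉ Near b →
      pr c j (run (pr c j) (mem b) s) = pr c j (run (pr c j) (mem b) s'))
    (r0 : Fin R) (hι : Fintype.card ι = q ^ k) (hΛ : R * W ≤ 2 ^ Λ) (hΛ0 : 1 ≤ Λ)
    (h1 : 4 * (X + 1) ≤ P * d) (h2 : 32 * (T * d) ≤ q ^ k) (hd : 0 < d)
    (h3 : 16 * (P ^ T * μ) ≤ q ^ k) (h4 : 2 * q ^ k ≤ μ * 2 ^ k)
    (h5 : 512 * ((T * (2 * q ^ k + 1) + 4) * (16 * Λ)) ≤ q * q ^ k) (hP : 2 ≤ P) :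
    q ^ k * μ < 128 * (R * (16 * Λ)) := by
  classical
  by_contra hcon
  push Not at hcon
  have hq : 0 < q := lt_of_lt_of_le ht0 ht
  have hm : 0 < q ^ k := by positivity
  have hμ : 0 < μ := by
    rcases Nat.eq_zero_or_pos μ with h | h
    · subst h; omega
    · exact h
  set k₀ := T * (2 * q ^ k + 1) with hk₀
  set n := k₀ + 4 with hn
  obtain ⟨Ω, hΩ⟩ := certify (T := T) (kt := k₀ + n + 1) (gr (q := q) (k := k) t) pr out
    (mem fun _ => z)
  have hκ : Fintype.card (Fin k → ZMod q) = q ^ k := by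
    rw [Fintype.card_fun, ZMod.card, Fintype.card_fin]
  have hfin := counting (ι := ι) (s := 2 * n * Λ) (Z := (R * W) ^ (k₀ + n + 1)) ht0
    (gr (q := q) (k := k) t) (card_gr t) z (by rw [hκ]; exact hm)
    (by rw [Fintype.card_fun, Fintype.card_prod, Fintype.card_fin, Fintype.card_fin,
      Fintype.card_fin]) Ω ?_
  · have hb : 4 * (R * W) ^ (k₀ + n + 1) ≤ 2 ^ (Λ * (k₀ + n + 1) + 2) := by
      calc 4 * (R * W) ^ (k₀ + n + 1) ≤ 4 * (2 ^ Λ) ^ (k₀ + n + 1) := by gcongr
        _ = 2 ^ (Λ * (k₀ + n + 1) + 2) := by rw [← pow_mul, pow_add]; ring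
    have hc : 2 * n * Λ ≤ Λ * (k₀ + n + 1) + 2 :=
      (Nat.pow_le_pow_iff_right (by norm_num)).1 (hfin.trans hb)
    have e1 : 2 * n * Λ = Λ * (k₀ + n + 1) + 3 * Λ := by rw [hn]; ring
    omega
  · intro b hrows
    rw [hι, hκ] at hrows
    -- rows with few bad queries
    let J₀ := Finset.univ.filter fun j : ι => q ^ k ≤ 8 * (dis (gr (q := q) (k := k) t) z b j).card
    have hJ₀ : q ^ k ≤ 8 * J₀.card := hrows
    let Bj : ι → Finset (Fin k → ZMod q) := fun j => Finset.univ.filter fun c => (c, j) ∈ Bad b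
    let Jb := Finset.univ.filter fun j : ι => q ^ k < 16 * (Bj j).card
    have hJb : 16 * Jb.card ≤ q ^ k := by
      have e1 : ∑ j, (Bj j).card ≤ (Bad b).card := by
        rw [Finset.card_eq_sum_card_fiberwise (f := fun a : (Fin k → ZMod q) × ι => a.2)
          (t := Finset.univ) (s := Bad b) (fun _ _ => Finset.mem_univ _)]
        refine Finset.sum_le_sum fun j _ => ?_
        refine Finset.card_le_card_of_injOn (fun c => (c, j)) ?_ ?_
        · intro c hc
          exact Finset.mem_coe.2 (Finset.mem_filter.2 ⟨(Finset.mem_filter.1 hc).2, rfl⟩)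
        · intro c _ c' _ h
          exact (Prod.ext_iff.1 h).1
      have e2 : Jb.card * q ^ k ≤ 16 * ∑ j, (Bj j).card := by
        rw [← smul_eq_mul, ← Finset.sum_const, Finset.mul_sum]
        refine (Finset.sum_le_sum fun j hj => (Finset.mem_filter.1 hj).2.le).trans ?_
        exact Finset.sum_le_sum_of_subset (Finset.filter_subset _ _)
      have e3 := hBad b
      refine Nat.le_of_mul_le_mul_right (c := q ^ k) ?_ hm
      have e4 : 16 * Jb.card * q ^ k = 16 * (Jb.card * q ^ k) := by ring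
      rw [e4]
      omega
    let J₁ := J₀ \ Jb
    have hJ₁ : q ^ k ≤ 16 * J₁.card := by
      have e1 : J₀.card - Jb.card ≤ J₁.card := Finset.le_card_sdiff Jb J₀
      omega
    let I₁ : ι → Finset (Fin k → ZMod q) := fun j => dis (gr (q := q) (k := k) t) z b j \ Bj j
    have hI₁ : ∀ j ∈ J₁, P ^ T * μ ≤ (I₁ j).card := by
      intro j hj
      rw [Finset.mem_sdiff, Finset.mem_filter, Finset.mem_filter] at hj
      have e1 := hj.1.2
      have e2 : ¬ q ^ k < 16 * (Bj j).card := fun h => hj.2 ⟨Finset.mem_univ _, h⟩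
      have e3 : (dis (gr (q := q) (k := k) t) z b j).card - (Bj j).card ≤ (I₁ j).card :=
        Finset.le_card_sdiff _ _
      omega
    have hJ₁m : J₁.card ≤ q ^ k := by
      rw [← hι]; exact Finset.card_le_univ _
    let x : ℕ → (Fin k → ZMod q) → ι → Fin R := fun s c j => pr c j (run (pr c j) (mem b) s)
    obtain ⟨C, J, I, hC, hJJ, hJd, hII, hIμ, hCx⟩ := levels x (Near b) (hX b) h1 hP hd J₁ hJ₁m I₁
      T μ hμ hI₁
    have hJ : q ^ k ≤ 32 * J.card := by
      have e1 : J₁.card - J.card ≤ (J₁ \ J).card := Finset.le_card_sdiff _ _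
      omega
    -- the far cells
    let f : (Fin k → ZMod q) → ι → Fin R := fun c j =>
      if h : ∃ s, s < T ∧ x s c j ∉ Near b then x h.choose c j else r0
    have hf : ∀ c j, (c, j) ∉ Bad b → ∀ s < T, x s c j ∉ Near b → x s c j = f c j := by
      intro c j hcj s hs hN
      have h : ∃ s, s < T ∧ x s c j ∉ Near b := ⟨s, hs, hN⟩
      simp only [f]
      rw [dif_pos h]
      exact hfar b c j hcj s hs _ h.choose_spec.1 hN h.choose_spec.2
    have hJpos : 0 < J.card := by omega
    have hfR : 4 * (R * (16 * Λ)) ≤ J.card * μ := by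
      have e1 : q ^ k * μ ≤ 32 * J.card * μ := Nat.mul_le_mul_right _ hJ
      have e2 : 32 * J.card * μ = 32 * (J.card * μ) := by ring
      omega
    have hfn : 16 * (n * (16 * Λ)) ≤ q * J.card := by
      have e1 : q * q ^ k ≤ q * (32 * J.card) := Nat.mul_le_mul_left _ hJ
      have e2 : q * (32 * J.card) = 32 * (q * J.card) := by ring
      omega
    obtain ⟨F, Wj, hF, hW, hlow, -⟩ := farPhase (w := 16 * Λ) ht hk (by omega) ht0 J I f μ hIμ h4
      hfR hJpos n hfn
    have hKc : (insert r0 (C ∪ F)).card ≤ k₀ + n + 1 := by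
      have e1 := Finset.card_insert_le r0 (C ∪ F)
      have e2 := Finset.card_union_le C F
      omega
    obtain ⟨p, hp1, hp2⟩ := hΩ (mem b) (insert r0 (C ∪ F)) ⟨r0, Finset.mem_insert_self _ _⟩ hKc
    refine ⟨p, ?_, ?_⟩
    · have hsub : (J.sigma Wj).card ≤ (Ω p).card := by
        refine Finset.card_le_card_of_injOn (fun a => (a.1, a.2)) ?_ ?_
        · rintro ⟨j, e⟩ ha
          have ha' := Finset.mem_sigma.1 ha
          obtain ⟨c, hc, hcF, hce⟩ := hW j e ha'.2
          have hcI := Finset.mem_sdiff.1 (hII j hc)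
          have hcB : (c, j) ∉ Bad b := fun h =>
            hcI.2 (Finset.mem_filter.2 ⟨Finset.mem_univ _, h⟩)
          refine hp1 j e c hce ?_ ?_
          · intro s hs
            by_cases hN : x s c j ∈ Near b
            · exact Finset.mem_insert_of_mem (Finset.mem_union_left _ (hCx s hs j c hc hN))
            · refine Finset.mem_insert_of_mem (Finset.mem_union_right _ ?_)
              change x s c j ∈ F
              rw [hf c j hcB s hs hN]
              exact hcF
          · rw [hcor]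
            exact (Finset.mem_filter.1 hcI.1).2
        · rintro ⟨j, e⟩ _ ⟨j', e'⟩ _ h
          obtain ⟨rfl, rfl⟩ := Prod.ext_iff.1 h
          rfl
      rw [Finset.card_sigma] at hsub
      have e1 : 4 * (2 * t * (2 * n * Λ)) = n * (16 * Λ) * t := by ring
      omega
    · rintro ⟨j, e⟩ ha
      obtain ⟨c, hce, hc⟩ := hp2 _ ha
      exact (hcor b c j).1 hc e hce

end

end Pool.Agent.OneFar
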