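import Pool.Agent.Lib_helper53.OFP.RS

set_option autoImplicit false

namespace Pool.Agent.OneFar

open Finset

/-- one level of probes: a small set `C` of cells keeps a positive part of almost all rows -/
theorem level {ι κ V : Type} [DecidableEq ι] [DecidableEq κ] [DecidableEq V] (J : Finset ι)
    (I : ι → Finset κ) (x : κ → ι → V) (Vs : Finset V) (hx : ∀ j ∈ J, ∀ i ∈ I j, x i j ∈ Vs)
    (μ g d X : ℕ) (hμ : ∀ j ∈ J, μ ≤ (I j).card) (hg : 2 * g ≤ μ) (hX : Vs.card ≤ X) (hd : 0 < d)
    (hμ0 : 0 < μ) :
    ∃ C ⊆ Vs, ∃ J' ⊆ J, (J \ J').card ≤ d ∧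
      (∀ j ∈ J', g ≤ ((I j).filter fun i => x i j ∈ C).card) ∧
      C.card * (μ * d) ≤ J.card * (μ * d) + 4 * g * J.card * X + μ * d := by
  classical
  -- number of `i` whose cell is `v`, or in `C`
  let n : ι → V → ℕ := fun j v => ((I j).filter fun i => x i j = v).card
  let D : ι → Finset V → ℕ := fun j C => ((I j).filter fun i => x i j ∈ C).card
  let Jp := J.filter fun j => ∃ v ∈ Vs, g ≤ n j v
  let Jn := J.filter fun j => ¬ ∃ v ∈ Vs, g ≤ n j v
  have hmono : ∀ (j : ι) (C C' : Finset V), C ⊆ C' → D j C ≤ D j C' := by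
    intro j C C' h
    refine Finset.card_le_card fun i hi => ?_
    rw [Finset.mem_filter] at hi ⊢
    exact ⟨hi.1, h hi.2⟩
  have hpop : ∀ j ∈ Jp, ∃ v ∈ Vs, g ≤ n j v := fun j hj => (Finset.mem_filter.1 hj).2
  let C₀ : Finset V := Jp.attach.image fun j => (hpop j.1 j.2).choose
  have hC₀s : C₀ ⊆ Vs := by
    intro v hv
    obtain ⟨j, -, rfl⟩ := Finset.mem_image.1 hv
    exact (hpop j.1 j.2).choose_spec.1
  have hC₀c : C₀.card ≤ J.card := by
    refine Finset.card_image_le.trans ?_
    rw [Finset.card_attach]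
    exact Finset.card_filter_le _ _
  have hJp : ∀ j ∈ Jp, ∀ C : Finset V, C₀ ⊆ C → g ≤ D j C := by
    intro j hj C hC
    have h1 := (hpop j hj).choose_spec.2
    refine h1.trans (Finset.card_le_card fun i hi => ?_)
    rw [Finset.mem_filter] at hi ⊢
    refine ⟨hi.1, ?_⟩
    rw [hi.2]
    exact hC (Finset.mem_image.2 ⟨⟨j, hj⟩, Finset.mem_attach _ _, rfl⟩)
  let U : Finset V → Finset ι := fun C => Jn.filter fun j => D j C < g
  let Φ : Finset V → ℕ := fun C => ∑ j ∈ Jn, min (D j C) (2 * g)
  have hΦ : ∀ C, Φ C ≤ 2 * g * J.card := by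
    intro C
    calc Φ C ≤ ∑ _j ∈ Jn, 2 * g := Finset.sum_le_sum fun j _ => min_le_right _ _
      _ = Jn.card * (2 * g) := by rw [Finset.sum_const, smul_eq_mul]
      _ ≤ J.card * (2 * g) := Nat.mul_le_mul_right _ (Finset.card_filter_le _ _)
      _ = 2 * g * J.card := by ring
  have hstep : ∀ C ⊆ Vs, d < (U C).card → ∃ v ∈ Vs, μ * d ≤ 2 * X * ∑ j ∈ U C, n j v ∧ v ∉ C := by
    intro C hC hU
    by_contra hcon
    push Not at hcon
    have hv : ∀ v ∈ Vs \ C, 2 * X * ∑ j ∈ U C, n j v < μ * d := by
      intro v hv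
      rw [Finset.mem_sdiff] at hv
      by_contra h
      push Not at h
      exact hv.2 (hcon v hv.1 h)
    have hrow : ∀ j ∈ U C, μ ≤ 2 * ∑ v ∈ Vs \ C, n j v := by
      intro j hj
      have hjU := (Finset.mem_filter.1 hj)
      have hjJ : j ∈ J := (Finset.mem_filter.1 hjU.1).1
      have h1 : (I j).card = D j C + ∑ v ∈ Vs \ C, n j v := by
        have h2 : (I j).card = ((I j).filter fun i => x i j ∈ C).card +
            ((I j).filter fun i => ¬ x i j ∈ C).card :=
          (Finset.card_filter_add_card_filter_not _).symm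
        rw [h2]
        congr 1
        rw [Finset.card_eq_sum_card_fiberwise (f := fun i => x i j) (t := Vs \ C)]
        · refine Finset.sum_congr rfl fun v hv => ?_
          simp only [n]
          congr 1
          ext i
          simp only [Finset.mem_filter]
          constructor
          · rintro ⟨⟨a, _⟩, c⟩; exact ⟨a, c⟩
          · rintro ⟨a, c⟩
            refine ⟨⟨a, ?_⟩, c⟩
            rw [c]
            exact (Finset.mem_sdiff.1 hv).2
        · intro i hi
          simp only [Finset.coe_filter, Set.mem_ofPred_eq] at hi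
          simp only [Finset.coe_sdiff, Set.mem_sdiff, Finset.mem_coe]
          exact ⟨hx j hjJ i hi.1, hi.2⟩
      have h3 := hμ j hjJ
      have h4 := hjU.2
      omega
    have hsum1 : (d + 1) * μ ≤ 2 * ∑ v ∈ Vs \ C, ∑ j ∈ U C, n j v := by
      rw [Finset.sum_comm, Finset.mul_sum]
      calc (d + 1) * μ ≤ (U C).card * μ := Nat.mul_le_mul_right _ hU
        _ = ∑ _j ∈ U C, μ := by rw [Finset.sum_const, smul_eq_mul]
        _ ≤ _ := Finset.sum_le_sum hrow
    have hsum2 : X * (2 * ∑ v ∈ Vs \ C, ∑ j ∈ U C, n j v) ≤ X * (μ * d) := by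
      calc X * (2 * ∑ v ∈ Vs \ C, ∑ j ∈ U C, n j v) =
            ∑ v ∈ Vs \ C, 2 * X * ∑ j ∈ U C, n j v := by
              rw [← Finset.mul_sum]; ring
        _ ≤ ∑ _v ∈ Vs \ C, μ * d := Finset.sum_le_sum fun v hv' => (hv v hv').le
        _ = (Vs \ C).card * (μ * d) := by rw [Finset.sum_const, smul_eq_mul]
        _ ≤ X * (μ * d) := Nat.mul_le_mul_right _
            ((Finset.card_le_card Finset.sdiff_subset).trans hX)
    have hX0 : 0 < X := by
      rcases Nat.eq_zero_or_pos X with h | h
      · exfalso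
        subst h
        have hVs : Vs = ∅ := Finset.card_eq_zero.1 (Nat.le_zero.1 hX)
        rw [hVs] at hsum1
        simp only [Finset.empty_sdiff, Finset.sum_empty, mul_zero, Nat.le_zero,
          mul_eq_zero] at hsum1
        omega
      · exact h
    have h5 : 2 * ∑ v ∈ Vs \ C, ∑ j ∈ U C, n j v ≤ μ * d := Nat.le_of_mul_le_mul_left hsum2 hX0
    have h6 : (d + 1) * μ ≤ μ * d := hsum1.trans h5
    have h7 : (d + 1) * μ = μ * d + μ := by ring
    omega
  have hind : ∀ m : ℕ, ∃ C ⊆ Vs, C.card ≤ m ∧ ((U C).card ≤ d ∨ m * (μ * d) ≤ 2 * X * Φ C) := by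
    intro m
    induction m with
    | zero => exact ⟨∅, Finset.empty_subset _, by simp, Or.inr (by simp)⟩
    | succ m ih =>
      obtain ⟨C, hC, hCm, h⟩ := ih
      by_cases hU : (U C).card ≤ d
      · exact ⟨C, hC, by omega, Or.inl hU⟩
      push Not at hU
      have hΦC : m * (μ * d) ≤ 2 * X * Φ C := by
        rcases h with h | h
        · omega
        · exact h
      obtain ⟨v, hv, hgain, hvC⟩ := hstep C hC hU
      refine ⟨insert v C, Finset.insert_subset hv hC, ?_, Or.inr ?_⟩
      · rw [Finset.card_insert_of_notMem hvC]; omega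
      have hΦ' : Φ C + ∑ j ∈ U C, n j v ≤ Φ (insert v C) := by
        have h1 : ∑ j ∈ U C, n j v = ∑ j ∈ Jn, if D j C < g then n j v else 0 := by
          rw [← Finset.sum_filter]
        rw [h1]
        simp only [Φ]
        rw [← Finset.sum_add_distrib]
        refine Finset.sum_le_sum fun j hj => ?_
        have hm := hmono j C (insert v C) (Finset.subset_insert v C)
        split_ifs with hlt
        · have h2 : D j (insert v C) = D j C + n j v := by
            simp only [D, n]
            rw [← Finset.card_union_of_disjoint]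
            · congr 1
              ext i
              simp only [Finset.mem_filter, Finset.mem_insert, Finset.mem_union]
              tauto
            · rw [Finset.disjoint_left]
              intro i hi hi'
              rw [Finset.mem_filter] at hi hi'
              exact hvC (hi'.2 ▸ hi.2)
          have h3 : n j v < g := by
            have h4 := (Finset.mem_filter.1 hj).2
            by_contra h5
            push Not at h5
            exact h4 ⟨v, hv, h5⟩
          rw [h2, min_eq_left (by omega), min_eq_left (by omega)]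
        · rw [add_zero]
          exact min_le_min_right _ hm
      calc (m + 1) * (μ * d) = m * (μ * d) + μ * d := by ring
        _ ≤ 2 * X * Φ C + 2 * X * ∑ j ∈ U C, n j v := Nat.add_le_add hΦC hgain
        _ = 2 * X * (Φ C + ∑ j ∈ U C, n j v) := by ring
        _ ≤ 2 * X * Φ (insert v C) := Nat.mul_le_mul_left _ hΦ'
  have hμd : 0 < μ * d := Nat.mul_pos hμ0 hd
  set m := 4 * g * J.card * X / (μ * d) + 1 with hm
  obtain ⟨C₁, hC₁, hC₁m, h⟩ := hind m
  have hU : (U C₁).card ≤ d := by
    rcases h with h | h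
    · exact h
    · exfalso
      have h1 : 4 * g * J.card * X < m * (μ * d) := by
        rw [hm]
        exact Nat.lt_mul_of_div_lt (Nat.lt_succ_self _) hμd
      have h2 : 2 * X * Φ C₁ ≤ 2 * X * (2 * g * J.card) := Nat.mul_le_mul_left _ (hΦ C₁)
      have h3 : 2 * X * (2 * g * J.card) = 4 * g * J.card * X := by ring
      omega
  refine ⟨C₀ ∪ C₁, Finset.union_subset hC₀s hC₁, J.filter fun j => g ≤ D j (C₀ ∪ C₁),
    Finset.filter_subset _ _, ?_, fun j hj => (Finset.mem_filter.1 hj).2, ?_⟩
  · refine le_trans (Finset.card_le_card fun j hj => ?_) hU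
    rw [Finset.mem_sdiff, Finset.mem_filter, not_and, not_le] at hj
    have hlt := hj.2 hj.1
    have hjn : j ∈ Jn := by
      refine Finset.mem_filter.2 ⟨hj.1, fun hp => ?_⟩
      have := hJp j (Finset.mem_filter.2 ⟨hj.1, hp⟩) (C₀ ∪ C₁) Finset.subset_union_left
      omega
    refine Finset.mem_filter.2 ⟨hjn, lt_of_le_of_lt (hmono j _ _ Finset.subset_union_right) hlt⟩
  · have h1 : (C₀ ∪ C₁).card ≤ J.card + m := (Finset.card_union_le _ _).trans (Nat.add_le_add hC₀c hC₁m)
    have h2 : 4 * g * J.card * X / (μ * d) * (μ * d) ≤ 4 * g * J.card * X := Nat.div_mul_le_self _ _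
    calc (C₀ ∪ C₁).card * (μ * d) ≤ (J.card + m) * (μ * d) := Nat.mul_le_mul_right _ h1
      _ = J.card * (μ * d) + 4 * g * J.card * X / (μ * d) * (μ * d) + μ * d := by rw [hm]; ring
      _ ≤ _ := by omega

section

variable {q : ℕ} [Fact q.Prime]

/-- the greedy choice of the far cells -/
theorem farPhase {ι : Type} [DecidableEq ι] {t k w R : ℕ} (ht : t ≤ q) (hk : 4 * (w * k) ≤ t)
    (hw : 0 < w) (ht0 : 0 < t) (J : Finset ι) (I : ι → Finset (Fin k → ZMod q))
    (f : (Fin k → ZMod q) → ι → Fin R) (μ : ℕ) (hμ : ∀ j ∈ J, μ ≤ (I j).card)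
    (hμk : 2 * q ^ k ≤ μ * 2 ^ k) (hR : 4 * (R * w) ≤ J.card * μ) (hJ : 0 < J.card) :
    ∀ n : ℕ, 16 * (n * w) ≤ q * J.card → ∃ (F : Finset (Fin R)) (W : ι → Finset (Fin t × ZMod q)),
      F.card ≤ n ∧ (∀ j, ∀ e ∈ W j, ∃ c ∈ I j, f c j ∈ F ∧ e ∈ gr t c) ∧
      n * w * t ≤ 4 * ∑ j ∈ J, (W j).card ∧ ∑ j ∈ J, (W j).card ≤ n * w * t := by
  classical
  intro n
  induction n with
  | zero =>
    intro _
    exact ⟨∅, fun _ => ∅, by simp, by simp, by simp, by simp⟩
  | succ n ih =>
    intro hn
    have hn' : 16 * (n * w) ≤ q * J.card := by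
      refine le_trans ?_ hn
      exact Nat.mul_le_mul_left _ (Nat.mul_le_mul_right _ (Nat.le_succ n))
    obtain ⟨F, W, hF, hW, hlow, hup⟩ := ih hn'
    have hq : 0 < q := lt_of_lt_of_le ht0 ht
    have hμ0 : 0 < μ := by
      rcases Nat.eq_zero_or_pos μ with h | h
      · exfalso
        subst h
        have : 0 < q ^ k := by positivity
        omega
      · exact h
    -- unsaturated rows
    let J₁ := J.filter fun j => 8 * (W j).card ≤ t * q
    have hJ₁ : J.card ≤ 2 * J₁.card := by
      have h1 : J.card = J₁.card + (J.filter fun j => ¬ 8 * (W j).card ≤ t * q).card :=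
        (Finset.card_filter_add_card_filter_not _).symm
      have h2 : (J.filter fun j => ¬ 8 * (W j).card ≤ t * q).card * (t * q) ≤
          8 * ∑ j ∈ J, (W j).card := by
        rw [← smul_eq_mul, ← Finset.sum_const, Finset.mul_sum]
        calc ∑ _j ∈ J.filter (fun j => ¬ 8 * (W j).card ≤ t * q), t * q ≤
              ∑ j ∈ J.filter (fun j => ¬ 8 * (W j).card ≤ t * q), 8 * (W j).card :=
                Finset.sum_le_sum fun j hj => (not_le.1 (Finset.mem_filter.1 hj).2).le
          _ ≤ ∑ j ∈ J, 8 * (W j).card :=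
                Finset.sum_le_sum_of_subset (Finset.filter_subset _ _)
      have h3 : (J.filter fun j => ¬ 8 * (W j).card ≤ t * q).card * (t * q) * 2 ≤
          J.card * (t * q) := by
        calc (J.filter fun j => ¬ 8 * (W j).card ≤ t * q).card * (t * q) * 2 ≤
              8 * (n * w * t) * 2 := by omega
          _ = 16 * (n * w) * t := by ring
          _ ≤ q * J.card * t := Nat.mul_le_mul_right _ hn'
          _ = J.card * (t * q) := by ring
      have h4 : (J.filter fun j => ¬ 8 * (W j).card ≤ t * q).card * 2 ≤ J.card := by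
        refine Nat.le_of_mul_le_mul_right (c := t * q) ?_ (Nat.mul_pos ht0 hq)
        calc _ = (J.filter fun j => ¬ 8 * (W j).card ≤ t * q).card * (t * q) * 2 := by ring
          _ ≤ _ := h3
      omega
    -- usable pairs
    let Us : ι → Finset (Fin k → ZMod q) := fun j => (I j).filter fun c => 2 * (gr t c ∩ W j).card < t
    have hk1 : 4 * k ≤ t := by
      refine le_trans ?_ hk
      exact Nat.mul_le_mul_left _ (Nat.le_mul_of_pos_left k hw)
    have hUs : ∀ j ∈ J₁, μ ≤ 2 * (Us j).card := by
      intro j hj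
      have hj' := Finset.mem_filter.1 hj
      have h1 := few_bad ht hk1 (W j) hj'.2 ht0
      have h2 : (I j).card ≤ (Us j).card +
          (Finset.univ.filter fun c : Fin k → ZMod q => t ≤ 2 * (gr t c ∩ W j).card).card := by
        have h3 : I j ⊆ Us j ∪
            Finset.univ.filter fun c : Fin k → ZMod q => t ≤ 2 * (gr t c ∩ W j).card := by
          intro c hc
          by_cases h4 : 2 * (gr t c ∩ W j).card < t
          · exact Finset.mem_union_left _ (Finset.mem_filter.2 ⟨hc, h4⟩)
          · exact Finset.mem_union_right _ (Finset.mem_filter.2 ⟨Finset.mem_univ _, not_lt.1 h4⟩)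
        exact (Finset.card_le_card h3).trans (Finset.card_union_le _ _)
      have h5 : (Finset.univ.filter fun c : Fin k → ZMod q =>
          t ≤ 2 * (gr t c ∩ W j).card).card * 2 ≤ μ := by
        refine Nat.le_of_mul_le_mul_right (c := 2 ^ k) ?_ (by positivity)
        calc _ = 2 * ((Finset.univ.filter fun c : Fin k → ZMod q =>
            t ≤ 2 * (gr t c ∩ W j).card).card * 2 ^ k) := by ring
          _ ≤ 2 * q ^ k := Nat.mul_le_mul_left _ h1
          _ ≤ μ * 2 ^ k := hμk
      have h6 := hμ j hj'.1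
      omega
    let P : Finset (Σ _ : ι, Fin k → ZMod q) := J₁.sigma Us
    have hP : R * w ≤ P.card := by
      have h1 : J₁.card * μ ≤ 2 * P.card := by
        rw [Finset.card_sigma, Finset.mul_sum, ← smul_eq_mul, ← Finset.sum_const]
        exact Finset.sum_le_sum hUs
      have h2 : J.card * μ ≤ 2 * J₁.card * μ := Nat.mul_le_mul_right _ hJ₁
      have h3 : 2 * J₁.card * μ = 2 * (J₁.card * μ) := by ring
      omega
    have hne : (Finset.univ : Finset (Fin R)).Nonempty := by
      have h1 : 0 < J₁.card := by omega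
      obtain ⟨j, hj⟩ := Finset.card_pos.1 h1
      have h2 : 0 < (Us j).card := by have := hUs j hj; omega
      obtain ⟨c, -⟩ := Finset.card_pos.1 h2
      exact ⟨f c j, Finset.mem_univ _⟩
    obtain ⟨v, -, hv⟩ := Finset.exists_le_card_fiber_of_mul_le_card_of_maps_to
      (f := fun p : Σ _ : ι, Fin k → ZMod q => f p.2 p.1) (s := P) (t := Finset.univ)
      (fun _ _ => Finset.mem_univ _) hne (n := w)
      (by rw [Finset.card_univ, Fintype.card_fin]; exact hP)
    obtain ⟨Q, hQ, hQw⟩ := Finset.exists_subset_card_eq hv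
    -- the new polynomials of the row `j`
    let G : ι → Finset (Fin k → ZMod q) := fun j => (Q.filter fun p => p.1 = j).image Sigma.snd
    have hGc : ∀ j, (G j).card = (Q.filter fun p => p.1 = j).card := by
      intro j
      refine Finset.card_image_of_injOn ?_
      rintro ⟨a, b⟩ hp ⟨a', b'⟩ hp' h
      simp only [Finset.coe_filter, Set.mem_ofPred_eq] at hp hp'
      obtain ⟨-, rfl⟩ := hp
      obtain ⟨-, h1⟩ := hp'
      subst h1
      simp only at h
      rw [h]
    have hGsum : ∑ j ∈ J, (G j).card = w := by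
      rw [← hQw, Finset.card_eq_sum_card_fiberwise (f := fun p : Σ _ : ι, Fin k → ZMod q => p.1)
        (t := J)]
      · exact Finset.sum_congr rfl fun j _ => hGc j
      · intro p hp
        have h1 := (Finset.mem_filter.1 (hQ hp)).1
        exact (Finset.mem_filter.1 (Finset.mem_sigma.1 h1).1).1
    have hGmem : ∀ j, ∀ c ∈ G j, c ∈ I j ∧ 2 * (gr t c ∩ W j).card < t ∧ f c j = v := by
      intro j c hc
      obtain ⟨p, hp, rfl⟩ := Finset.mem_image.1 hc
      obtain ⟨hpQ, rfl⟩ := Finset.mem_filter.1 hp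
      have h1 := Finset.mem_filter.1 (hQ hpQ)
      have h2 := Finset.mem_filter.1 (Finset.mem_sigma.1 h1.1).2
      exact ⟨h2.1, h2.2, h1.2⟩
    have hGw : ∀ j, (G j).card ≤ w := by
      intro j
      rw [hGc j, ← hQw]
      exact Finset.card_filter_le _ _
    refine ⟨insert v F, fun j => W j ∪ (G j).biUnion fun c => gr t c, ?_, ?_, ?_, ?_⟩
    · exact (Finset.card_insert_le _ _).trans (by omega)
    · intro j e he
      rcases Finset.mem_union.1 he with h | h
      · obtain ⟨c, hc, h1, h2⟩ := hW j e h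
        exact ⟨c, hc, Finset.mem_insert_of_mem h1, h2⟩
      · obtain ⟨c, hc, h1⟩ := Finset.mem_biUnion.1 h
        have h2 := hGmem j c hc
        exact ⟨c, h2.1, by rw [h2.2.2]; exact Finset.mem_insert_self _ _, h1⟩
    · have h1 : ∀ j ∈ J, 4 * (W j).card + (G j).card * t ≤
          4 * (W j ∪ (G j).biUnion fun c => gr t c).card := by
        intro j _
        have h2 := many_new ht hk (W j) (G j) (hGw j) fun c hc => (hGmem j c hc).2.1
        have h3 : (W j ∪ (G j).biUnion fun c => gr t c).card =
            (W j).card + (((G j).biUnion fun c => gr t c) \ W j).card := by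
          rw [← Finset.card_union_of_disjoint Finset.disjoint_sdiff, Finset.union_sdiff_self_eq_union]
        omega
      have h4 := Finset.sum_le_sum h1
      rw [Finset.sum_add_distrib, ← Finset.mul_sum, ← Finset.mul_sum, ← Finset.sum_mul,
        hGsum] at h4
      calc (n + 1) * w * t = n * w * t + w * t := by ring
        _ ≤ 4 * ∑ j ∈ J, (W j ∪ (G j).biUnion fun c => gr t c).card := by omega
    · have h1 : ∀ j ∈ J, (W j ∪ (G j).biUnion fun c => gr t c).card ≤
          (W j).card + (G j).card * t := by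
        intro j _
        refine (Finset.card_union_le _ _).trans (Nat.add_le_add_left ?_ _)
        refine Finset.card_biUnion_le.trans ?_
        rw [← smul_eq_mul, ← Finset.sum_const]
        exact Finset.sum_le_sum fun c _ => (card_gr t c).le
      have h4 := Finset.sum_le_sum h1
      rw [Finset.sum_add_distrib, ← Finset.sum_mul, hGsum] at h4
      calc ∑ j ∈ J, (W j ∪ (G j).biUnion fun c => gr t c).card ≤
            ∑ j ∈ J, (W j).card + w * t := h4
        _ ≤ n * w * t + w * t := Nat.add_le_add_right hup _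
        _ = (n + 1) * w * t := by ring

end

end Pool.Agent.OneFar
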