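import Mathlib

set_option autoImplicit false

namespace Pool.Agent.OneFar

theorem pow_four_le {n : ℕ} (hn : 16 ≤ n) : n ^ 4 ≤ 2 ^ n := by
  induction n, hn using Nat.le_induction with
  | base => norm_num
  | succ n hn ih =>
    have h1 : (n + 1) ^ 4 ≤ 2 * n ^ 4 := by nlinarith [Nat.mul_le_mul hn hn, sq_nonneg (n ^ 2)]
    calc (n + 1) ^ 4 ≤ 2 * n ^ 4 := h1
      _ ≤ 2 * 2 ^ n := Nat.mul_le_mul_left _ ih
      _ = 2 ^ (n + 1) := by ring

theorem le_two_mul_div {m x : ℕ} (hx : 0 < x) (h : x ≤ m) : m ≤ 2 * x * (m / x) := by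
  have h1 : 1 ≤ m / x := (Nat.one_le_div_iff hx).2 h
  have h2 : m < x * (m / x + 1) := Nat.lt_mul_div_succ m hx
  nlinarith

/-- the choice of the parameters -/
theorem params (a T : ℕ) : ∃ c L₀ : ℕ, ∀ N L : ℕ, L = Nat.log 2 N + 1 → L₀ ≤ L →
    ∃ t q k P d μ Λ : ℕ, q.Prime ∧ 0 < t ∧ t ≤ q ∧ Λ = 3 * L ^ (a + 1) ∧ 1 ≤ Λ ∧
      4 * (16 * Λ * k) ≤ t ∧ 4 * (N * L ^ a + 1) ≤ P * d ∧ 32 * (T * d) ≤ q ^ k ∧ 0 < d ∧
      16 * (P ^ T * μ) ≤ q ^ k ∧ 2 * q ^ k ≤ μ * 2 ^ k ∧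
      512 * ((T * (2 * q ^ k + 1) + 4) * (16 * Λ)) ≤ q * q ^ k ∧ 2 ≤ P ∧
      q ^ k * (t * (q + 1)) ≤ N ∧ 3 ≤ t * (q + 1) ∧
      N ^ 2 * (128 * (16 * Λ)) ≤ q ^ k * μ * L ^ c ∧ 256 * N ^ 2 ≤ q ^ k * q ^ k * L ^ c := by
  obtain ⟨c, hc⟩ : ∃ c, c = (4 * a + 11) * T + 7 * a + 23 := ⟨_, rfl⟩
  refine ⟨c, 2 ^ (16 + 3 * c) + 49152 * (3 * T + 4), ?_⟩
  intro N L hL hL₀
  have hL1 : 49152 * (3 * T + 4) ≤ L := le_trans (Nat.le_add_left _ _) hL₀
  have hL2 : 2 ^ (16 + 3 * c) ≤ L := le_trans (Nat.le_add_right _ _) hL₀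
  clear hL₀
  have hL0 : 0 < L := by omega
  have hN0 : N ≠ 0 := by
    intro h
    subst h
    rw [Nat.log_zero_right] at hL
    omega
  have hNlow : 2 ^ (L - 1) ≤ N := by
    rw [hL, Nat.add_sub_cancel]
    exact Nat.pow_log_le_self 2 hN0
  have hNup : N < 2 ^ L := by
    rw [hL]
    exact Nat.lt_pow_succ_log_self (by norm_num) N
  -- absorbing constants
  have habs : ∀ C n : ℕ, C ≤ L → C * L ^ n ≤ L ^ (n + 1) := by
    intro C n hC
    calc C * L ^ n ≤ L * L ^ n := Nat.mul_le_mul_right _ hC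
      _ = L ^ (n + 1) := by ring
  have hmono : ∀ m n : ℕ, m ≤ n → L ^ m ≤ L ^ n := fun m n h => Nat.pow_le_pow_right hL0 h
  obtain ⟨Λ, hΛ⟩ : ∃ Λ, Λ = 3 * L ^ (a + 1) := ⟨_, rfl⟩
  have hΛ1 : 1 ≤ Λ := by
    have : 0 < L ^ (a + 1) := by positivity
    omega
  obtain ⟨t, ht⟩ : ∃ t, t = 64 * Λ * L := ⟨_, rfl⟩
  have ht' : t = 192 * L ^ (a + 2) := by rw [ht, hΛ]; ring
  obtain ⟨Q, hQ⟩ : ∃ Q, Q = 8192 * (3 * T + 4) * (Λ * L) := ⟨_, rfl⟩
  have hQ' : 2 * Q = 49152 * (3 * T + 4) * L ^ (a + 2) := by rw [hQ, hΛ]; ring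
  have ht0 : 0 < t := by rw [ht]; positivity
  have hQ0 : Q ≠ 0 := by rw [hQ]; positivity
  obtain ⟨q, hq, hQq, hqQ⟩ := Nat.exists_prime_lt_and_le_two_mul Q hQ0
  have hqL : q ≤ L ^ (a + 3) := by
    rw [hQ'] at hqQ
    exact hqQ.trans (habs _ _ hL1)
  have htL : t ≤ L ^ (a + 3) := by
    rw [ht']
    exact habs _ _ (by omega)
  have hq1L : q + 1 ≤ L ^ (a + 4) := by
    have h1 : 1 ≤ L ^ (a + 3) := Nat.one_le_pow _ _ hL0
    have h2 : 2 * L ^ (a + 3) ≤ L ^ (a + 4) := habs 2 (a + 3) (by omega)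
    omega
  have htqL : t * (q + 1) ≤ L ^ (2 * a + 7) := by
    calc t * (q + 1) ≤ L ^ (a + 3) * L ^ (a + 4) := Nat.mul_le_mul htL hq1L
      _ = L ^ (2 * a + 7) := by rw [← pow_add]; congr 1; ring
  have htQ : t ≤ Q := by
    rw [ht, hQ]
    have : 64 * Λ * L = 64 * (Λ * L) := by ring
    rw [this]
    exact Nat.mul_le_mul_right _ (by omega)
  have htq : t ≤ q := by omega
  have htq0 : 0 < t * (q + 1) := by positivity
  -- the size of `L`
  obtain ⟨lam, hlam⟩ : ∃ lam, lam = Nat.log 2 L := ⟨_, rfl⟩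
  have hlam1 : 16 + 3 * c ≤ lam := by
    rw [hlam]
    exact Nat.le_log_of_pow_le (by norm_num) hL2
  have hLlow : 2 ^ lam ≤ L := by rw [hlam]; exact Nat.pow_log_le_self 2 hL0.ne'
  have hLup : L < 2 ^ (lam + 1) := by rw [hlam]; exact Nat.lt_pow_succ_log_self (by norm_num) L
  have hx : ((lam + 1) * c) * ((lam + 1) * c + 1) + 1 ≤ L := by
    have h1 : (lam + 1) * c + 1 ≤ lam ^ 2 := by nlinarith
    have h2 : ((lam + 1) * c) * ((lam + 1) * c + 1) + 1 ≤ ((lam + 1) * c + 1) ^ 2 := by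
      have : ((lam + 1) * c + 1) ^ 2 =
        ((lam + 1) * c) * ((lam + 1) * c + 1) + ((lam + 1) * c) + 1 := by ring
      omega
    calc _ ≤ ((lam + 1) * c + 1) ^ 2 := h2
      _ ≤ (lam ^ 2) ^ 2 := Nat.pow_le_pow_left h1 2
      _ = lam ^ 4 := by ring
      _ ≤ 2 ^ lam := pow_four_le (by omega)
      _ ≤ L := hLlow
  have hLc : ∀ n : ℕ, (L ^ c) ^ n ≤ 2 ^ ((lam + 1) * c * n) := by
    intro n
    calc (L ^ c) ^ n ≤ ((2 ^ (lam + 1)) ^ c) ^ n :=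
          Nat.pow_le_pow_left (Nat.pow_le_pow_left hLup.le c) n
      _ = 2 ^ ((lam + 1) * c * n) := by rw [← pow_mul, ← pow_mul, mul_assoc]
  -- `N` is large
  have hNbig : ∀ n : ℕ, (n : ℕ) ≤ (lam + 1) * c + 1 → (L ^ c) ^ n ≤ N := by
    intro n hn
    refine (hLc n).trans (le_trans ?_ hNlow)
    refine Nat.pow_le_pow_right (by norm_num) ?_
    have : (lam + 1) * c * n ≤ (lam + 1) * c * ((lam + 1) * c + 1) := Nat.mul_le_mul_left _ hn
    omega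
  have htqN : t * (q + 1) ≤ N := by
    refine le_trans htqL (le_trans ?_ (hNbig 1 (by omega)))
    rw [pow_one]
    exact hmono _ _ (by rw [hc]; nlinarith)
  obtain ⟨k, hk⟩ : ∃ k, k = Nat.log q (N / (t * (q + 1))) := ⟨_, rfl⟩
  have hdiv0 : N / (t * (q + 1)) ≠ 0 := (Nat.div_pos htqN htq0).ne'
  have hk1 : q ^ k ≤ N / (t * (q + 1)) := by rw [hk]; exact Nat.pow_log_le_self q hdiv0
  have hk2 : N / (t * (q + 1)) < q ^ (k + 1) := by
    rw [hk]; exact Nat.lt_pow_succ_log_self hq.one_lt _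
  have hmN : q ^ k * (t * (q + 1)) ≤ N :=
    (Nat.mul_le_mul_right _ hk1).trans (Nat.div_mul_le_self _ _)
  have hNm : N < q ^ (k + 1) * (t * (q + 1)) := (Nat.div_lt_iff_lt_mul htq0).1 hk2
  have hNm' : N ≤ q ^ k * L ^ (3 * a + 10) := by
    calc N ≤ q ^ (k + 1) * (t * (q + 1)) := hNm.le
      _ = q ^ k * (q * (t * (q + 1))) := by ring
      _ ≤ q ^ k * (L ^ (a + 3) * L ^ (2 * a + 7)) := by gcongr
      _ = q ^ k * L ^ (3 * a + 10) := by rw [← pow_add]; congr 2; ring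
  obtain ⟨m, hm⟩ : ∃ m, m = q ^ k := ⟨_, rfl⟩
  rw [← hm] at hk1 hmN hNm'
  have hm0 : 0 < m := by rw [hm]; exact Nat.pow_pos hq.pos
  obtain ⟨P, hP⟩ : ∃ P, P = 512 * (T + 1) * L ^ (4 * a + 10) := ⟨_, rfl⟩
  have hPL : P ≤ L ^ (4 * a + 11) := by rw [hP]; exact habs _ _ (by omega)
  have hP2 : 512 * (T + 1) ≤ P := by rw [hP]; exact Nat.le_mul_of_pos_right _ (by positivity)
  have hPT : 64 * P ^ T ≤ L ^ ((4 * a + 11) * T + 1) := by
    calc 64 * P ^ T ≤ 64 * (L ^ (4 * a + 11)) ^ T := by gcongr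
      _ = 64 * L ^ ((4 * a + 11) * T) := by rw [← pow_mul]
      _ ≤ _ := habs _ _ (by omega)
  have hk64 : 64 * P ^ T ≤ 2 ^ k := by
    by_contra hcon
    push Not at hcon
    have h1 : 2 ^ k < 2 ^ ((lam + 1) * c) := by
      calc 2 ^ k < 64 * P ^ T := hcon
        _ ≤ L ^ ((4 * a + 11) * T + 1) := hPT
        _ ≤ L ^ c := hmono _ _ (by rw [hc]; omega)
        _ = (L ^ c) ^ 1 := (pow_one _).symm
        _ ≤ 2 ^ ((lam + 1) * c * 1) := hLc 1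
        _ = _ := by rw [mul_one]
    have h2 : k < (lam + 1) * c := (Nat.pow_lt_pow_iff_right (by norm_num)).1 h1
    have h3 : N < N := by
      calc N < q ^ (k + 1) * (t * (q + 1)) := hNm
        _ ≤ (L ^ c) ^ (k + 1) * L ^ c := by
            gcongr
            · exact hqL.trans (hmono _ _ (by rw [hc]; nlinarith))
            · exact htqL.trans (hmono _ _ (by rw [hc]; nlinarith))
        _ = (L ^ c) ^ (k + 2) := by ring
        _ ≤ N := hNbig _ (by omega)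
    exact lt_irrefl _ h3
  have h2m : 2 ^ k ≤ m := by rw [hm]; exact Nat.pow_le_pow_left hq.two_le k
  have hPTm : 16 * P ^ T ≤ m := by
    have : 16 * P ^ T ≤ 64 * P ^ T := Nat.mul_le_mul_right _ (by norm_num)
    omega
  have hTm : 32 * (T + 1) ≤ m := by
    rcases Nat.eq_zero_or_pos T with h | h
    · subst h
      rw [pow_zero] at hk64
      omega
    · have h1 : P ≤ P ^ T := Nat.le_self_pow h.ne' P
      omega
  have hPT0 : 0 < 16 * P ^ T := by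
    have : 0 < P := by omega
    positivity
  obtain ⟨d, hd⟩ : ∃ d, d = m / (32 * (T + 1)) := ⟨_, rfl⟩
  have hd1 : m ≤ 64 * (T + 1) * d := by
    have := le_two_mul_div (m := m) (x := 32 * (T + 1)) (by omega) hTm
    rw [← hd] at this
    calc m ≤ 2 * (32 * (T + 1)) * d := this
      _ = 64 * (T + 1) * d := by ring
  have hd0 : 0 < d := by rw [hd]; exact Nat.div_pos hTm (by omega)
  obtain ⟨μ, hμ⟩ : ∃ μ, μ = m / (16 * P ^ T) := ⟨_, rfl⟩
  have hμ1 : m ≤ 32 * P ^ T * μ := by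
    have := le_two_mul_div (m := m) (x := 16 * P ^ T) hPT0 hPTm
    rw [← hμ] at this
    calc m ≤ 2 * (16 * P ^ T) * μ := this
      _ = 32 * P ^ T * μ := by ring
  refine ⟨t, q, k, P, d, μ, Λ, hq, ht0, htq, hΛ, hΛ1, ?_⟩
  rw [← hm]
  refine ⟨?_, ?_, ?_, hd0, ?_, ?_, ?_, ?_, hmN, ?_, ?_, ?_⟩
  · -- `k ≤ L`
    have h1 : 2 ^ k < 2 ^ L := by
      calc 2 ^ k ≤ m := h2m
        _ ≤ m * (t * (q + 1)) := Nat.le_mul_of_pos_right _ htq0
        _ ≤ N := hmN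
        _ < 2 ^ L := hNup
    have h2 : k < L := (Nat.pow_lt_pow_iff_right (by norm_num)).1 h1
    calc 4 * (16 * Λ * k) = 64 * Λ * k := by ring
      _ ≤ 64 * Λ * L := Nat.mul_le_mul_left _ h2.le
      _ = t := ht.symm
  · have h1 : 1 ≤ N * L ^ a := Nat.mul_pos (Nat.pos_of_ne_zero hN0) (by positivity)
    have h2 : N * L ^ a ≤ m * L ^ (4 * a + 10) := by
      calc N * L ^ a ≤ m * L ^ (3 * a + 10) * L ^ a := Nat.mul_le_mul_right _ hNm'
        _ = m * L ^ (4 * a + 10) := by rw [mul_assoc, ← pow_add]; congr 2; ring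
    calc 4 * (N * L ^ a + 1) ≤ 8 * (N * L ^ a) := by omega
      _ ≤ 8 * (m * L ^ (4 * a + 10)) := Nat.mul_le_mul_left _ h2
      _ ≤ 8 * (64 * (T + 1) * d * L ^ (4 * a + 10)) := by gcongr
      _ = 512 * (T + 1) * L ^ (4 * a + 10) * d := by ring
      _ = P * d := by rw [hP]
  · calc 32 * (T * d) ≤ 32 * (T + 1) * d := by nlinarith
      _ ≤ m := by rw [hd]; exact Nat.mul_div_le _ _
  · calc 16 * (P ^ T * μ) = 16 * P ^ T * μ := by ring
      _ ≤ m := by rw [hμ]; exact Nat.mul_div_le _ _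
  · calc 2 * m ≤ 2 * (32 * P ^ T * μ) := Nat.mul_le_mul_left _ hμ1
      _ = μ * (64 * P ^ T) := by ring
      _ ≤ μ * 2 ^ k := Nat.mul_le_mul_left _ hk64
  · have h1 : T * (2 * m + 1) + 4 ≤ (3 * T + 4) * m := by nlinarith
    calc 512 * ((T * (2 * m + 1) + 4) * (16 * Λ)) ≤ 512 * ((3 * T + 4) * m * (16 * Λ)) := by gcongr
      _ = 8192 * (3 * T + 4) * (Λ * 1) * m := by ring
      _ ≤ 8192 * (3 * T + 4) * (Λ * L) * m := by gcongr; omega
      _ = Q * m := by rw [hQ]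
      _ ≤ q * m := Nat.mul_le_mul_right _ hQq.le
  · omega
  · have h1 : 1 ≤ t := ht0
    have h2 : 2 ≤ q := hq.two_le
    nlinarith
  · have h1 : 128 * (16 * Λ) ≤ L ^ (a + 2) := by
      calc 128 * (16 * Λ) = 6144 * L ^ (a + 1) := by rw [hΛ]; ring
        _ ≤ _ := habs _ _ (by omega)
    have h2 : m ≤ L ^ ((4 * a + 11) * T + 1) * μ := by
      calc m ≤ 32 * P ^ T * μ := hμ1
        _ ≤ 64 * P ^ T * μ := by gcongr; norm_num
        _ ≤ _ := Nat.mul_le_mul_right _ hPT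
    calc N ^ 2 * (128 * (16 * Λ)) ≤ (m * L ^ (3 * a + 10)) ^ 2 * L ^ (a + 2) := by gcongr
      _ = m * (m * (L ^ (3 * a + 10)) ^ 2 * L ^ (a + 2)) := by ring
      _ ≤ m * (L ^ ((4 * a + 11) * T + 1) * μ * (L ^ (3 * a + 10)) ^ 2 * L ^ (a + 2)) := by gcongr
      _ = m * μ * (L ^ ((4 * a + 11) * T + 1) * (L ^ (3 * a + 10)) ^ 2 * L ^ (a + 2)) := by ring
      _ = m * μ * L ^ c := by
          rw [← pow_mul, ← pow_add, ← pow_add]
          congr 2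
          rw [hc]; ring
  · calc 256 * N ^ 2 ≤ L * (m * L ^ (3 * a + 10)) ^ 2 := by gcongr; omega
      _ = m * m * (L * (L ^ (3 * a + 10)) ^ 2) := by ring
      _ = m * m * L ^ (6 * a + 21) := by
          rw [← pow_mul, ← pow_succ']
          congr 2
          ring
      _ ≤ m * m * L ^ c := Nat.mul_le_mul_left _ (hmono _ _ (by rw [hc]; nlinarith))

end Pool.Agent.OneFar
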