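import Pool.Agent.Lib_helper53.OFP.Core
import Pool.Agent.Lib_helper53.OFP.Param

set_option autoImplicit false

namespace Pool.Agent.OneFar

open Finset

/-- the hard inputs: fixed sets `l c` (graphs of polynomials), random sets `r j`, and a padding set -/
theorem hard_input {q t k M u N : ℕ} [Fact q.Prime] (z : Fin (2 * t)) (hM : 2 * q ^ k + 1 ≤ M)
    (hN : q ^ k * (t * (q + 1)) ≤ N) (hu : N ≤ u) :
    ∃ (l r : (Fin k → ZMod q) → Fin M)
      (F : ((Fin k → ZMod q) × (Fin t × ZMod q) → Fin (2 * t)) → Fin M → Finset (Fin u)),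
      Function.Injective l ∧ Function.Injective r ∧ ∀ b, ∑ i, (F b i).card = N ∧
        ∀ c j, (Disjoint (F b (l c)) (F b (r j)) ↔ ∀ e ∈ gr t c, b (j, e) ≠ z) := by
  classical
  have hq : 0 < q := (Fact.out : q.Prime).pos
  have hκ : Fintype.card (Fin k → ZMod q) = q ^ k := by
    rw [Fintype.card_fun, ZMod.card, Fintype.card_fin]
  have hE : Fintype.card (Fin t × ZMod q) = t * q := by
    rw [Fintype.card_prod, Fintype.card_fin, ZMod.card]
  have hm : 0 < q ^ k := by positivity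
  have htqu : t * q ≤ u := by
    have h1 : t * q ≤ t * (q + 1) := Nat.mul_le_mul_left _ (by omega)
    have h2 : t * (q + 1) ≤ q ^ k * (t * (q + 1)) := Nat.le_mul_of_pos_left _ hm
    omega
  obtain ⟨φ⟩ := Function.Embedding.nonempty_of_card_le (α := Fin t × ZMod q) (β := Fin u)
    (by rw [hE, Fintype.card_fin]; exact htqu)
  obtain ⟨ψ⟩ := Function.Embedding.nonempty_of_card_le
    (α := (Fin k → ZMod q) ⊕ ((Fin k → ZMod q) ⊕ Unit)) (β := Fin M)
    (by rw [Fintype.card_sum, Fintype.card_sum, hκ, Fintype.card_fin, Fintype.card_unit]; omega)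
  let Lf : (Fin k → ZMod q) → Finset (Fin u) := fun c => (gr t c).map φ
  let Rt : ((Fin k → ZMod q) × (Fin t × ZMod q) → Fin (2 * t)) → (Fin k → ZMod q) →
      Finset (Fin u) := fun b j => (Finset.univ.filter fun e => b (j, e) = z).map φ
  have hL : ∀ c, (Lf c).card = t := fun c => by
    simp only [Lf]; rw [Finset.card_map, card_gr]
  have hR : ∀ b j, (Rt b j).card ≤ t * q := fun b j => by
    simp only [Rt]
    rw [Finset.card_map, ← hE]
    exact Finset.card_le_univ _
  have hsum : ∀ b, ∑ c, (Lf c).card + ∑ j, (Rt b j).card ≤ N := by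
    intro b
    calc ∑ c, (Lf c).card + ∑ j, (Rt b j).card ≤
          ∑ _c : Fin k → ZMod q, t + ∑ _j : Fin k → ZMod q, t * q :=
          Nat.add_le_add (Finset.sum_le_sum fun c _ => (hL c).le)
            (Finset.sum_le_sum fun j _ => hR b j)
      _ = q ^ k * (t * (q + 1)) := by
          rw [Finset.sum_const, Finset.sum_const, Finset.card_univ, hκ, smul_eq_mul, smul_eq_mul]
          ring
      _ ≤ N := hN
  have hpad : ∀ b, ∃ A : Finset (Fin u),
      A.card = N - (∑ c, (Lf c).card + ∑ j, (Rt b j).card) := by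
    intro b
    obtain ⟨A, -, hA⟩ := Finset.exists_subset_card_eq
      (s := (Finset.univ : Finset (Fin u))) (n := N - (∑ c, (Lf c).card + ∑ j, (Rt b j).card))
      (by rw [Finset.card_univ, Fintype.card_fin]; omega)
    exact ⟨A, hA⟩
  choose pad hpadc using hpad
  let G : ((Fin k → ZMod q) × (Fin t × ZMod q) → Fin (2 * t)) →
      (Fin k → ZMod q) ⊕ ((Fin k → ZMod q) ⊕ Unit) → Finset (Fin u) := fun b =>
    Sum.elim Lf (Sum.elim (Rt b) fun _ => pad b)
  refine ⟨fun c => ψ (Sum.inl c), fun j => ψ (Sum.inr (Sum.inl j)),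
    fun b => Function.extend ψ (G b) fun _ => ∅, ?_, ?_, ?_⟩
  · intro c c' h
    exact Sum.inl_injective (ψ.injective h)
  · intro c c' h
    exact Sum.inl_injective (Sum.inr_injective (ψ.injective h))
  intro b
  constructor
  · have h1 := Fintype.sum_of_injective ψ ψ.injective (fun x => (G b x).card)
      (fun i => (Function.extend ψ (G b) (fun _ => ∅) i).card) (by
        intro i hi
        rw [Function.extend_apply']
        · rfl
        · rintro ⟨x, hx⟩
          exact hi ⟨x, hx⟩) (by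
        intro x
        rw [ψ.injective.extend_apply])
    rw [← h1, Fintype.sum_sum_type, Fintype.sum_sum_type]
    simp only [G, Sum.elim_inl, Sum.elim_inr, Finset.univ_unique, Finset.sum_singleton, hpadc]
    have := hsum b
    omega
  · intro c j
    beta_reduce
    rw [ψ.injective.extend_apply, ψ.injective.extend_apply]
    simp only [G, Sum.elim_inl, Sum.elim_inr, Lf, Rt]
    rw [Finset.disjoint_map, Finset.disjoint_left]
    simp only [Finset.mem_filter, Finset.mem_univ, true_and, ne_eq]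

/-- the main theorem, with integer parameters -/
theorem main_nat (a T : ℕ) : ∃ c N₀ : ℕ, ∀ N ≥ N₀, ∀ (M u S W : ℕ)
    (mem : (Fin M → Finset (Fin u)) → Fin S → Fin W) (probe : Fin M → Fin M → List (Fin W) → Fin S)
    (out : Fin M → Fin M → List (Fin W) → Bool), N ≤ M → N ≤ u →
    (∀ F : Fin M → Finset (Fin u), ∑ i, (F i).card = N → ∀ i j,
      (out i j (run (probe i j) (mem F) T) = true ↔ Disjoint (F i) (F j))) →
    W ≤ 2 ^ ((Nat.log 2 N + 1) ^ a) →
    (∀ F : Fin M → Finset (Fin u), ∑ i, (F i).card = N → ∃ Near : Finset (Fin S),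
      Near.card ≤ N * (Nat.log 2 N + 1) ^ a ∧ ∀ B : Finset (Fin M × Fin M),
        (∀ p ∈ B, ∃ s < T, ∃ s' < T, probe p.1 p.2 (run (probe p.1 p.2) (mem F) s) ∉ Near ∧
          probe p.1 p.2 (run (probe p.1 p.2) (mem F) s') ∉ Near ∧
          probe p.1 p.2 (run (probe p.1 p.2) (mem F) s) ≠
            probe p.1 p.2 (run (probe p.1 p.2) (mem F) s')) →
        B.card * (Nat.log 2 N + 1) ^ c ≤ N ^ 2) →
    N ^ 2 ≤ S * (Nat.log 2 N + 1) ^ c := by
  classical
  obtain ⟨c, L₀, hpar⟩ := params a T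
  refine ⟨c, 2 ^ L₀, ?_⟩
  intro N hN M u S W mem probe out hNM hNu hcor hW hNear
  obtain ⟨L, hL⟩ : ∃ L, L = Nat.log 2 N + 1 := ⟨_, rfl⟩
  have hL₀ : L₀ ≤ L := by
    rw [hL]
    have : L₀ ≤ Nat.log 2 N := Nat.le_log_of_pow_le (by norm_num) hN
    omega
  rw [← hL] at hW hNear ⊢
  obtain ⟨t, q, k, P, d, μ, Λ, hq, ht0, htq, hΛ, hΛ1, h4, h5, h6, h7, h8, h9, h10, h11, h12, h13,
    h14, h15⟩ := hpar N L hL hL₀
  have : Fact q.Prime := ⟨hq⟩
  by_contra hcon
  push Not at hcon
  have hL1 : 1 ≤ L := by omega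
  have hLc : 1 ≤ L ^ c := Nat.one_le_pow _ _ hL1
  have hSN : S < N ^ 2 := lt_of_le_of_lt (Nat.le_mul_of_pos_right _ hLc) hcon
  have hN0 : N ≠ 0 := by
    rintro rfl
    simp at hSN
  have hN2 : N < 2 ^ L := by rw [hL]; exact Nat.lt_pow_succ_log_self (by norm_num) N
  have hSW : S * W ≤ 2 ^ Λ := by
    have e1 : N ^ 2 ≤ 2 ^ (2 * L) := by
      calc N ^ 2 ≤ (2 ^ L) ^ 2 := Nat.pow_le_pow_left hN2.le 2
        _ = 2 ^ (2 * L) := by rw [← pow_mul]; ring_nf
    have e2 : 2 * L + L ^ a ≤ Λ := by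
      have e3 : L ≤ L ^ (a + 1) := Nat.le_self_pow (by omega) L
      have e4 : L ^ a ≤ L ^ (a + 1) := Nat.pow_le_pow_right hL1 (by omega)
      rw [hΛ]; omega
    calc S * W ≤ 2 ^ (2 * L) * 2 ^ (L ^ a) := Nat.mul_le_mul (hSN.le.trans e1) hW
      _ = 2 ^ (2 * L + L ^ a) := by rw [← pow_add]
      _ ≤ 2 ^ Λ := Nat.pow_le_pow_right (by norm_num) e2
  have hm : 0 < q ^ k := Nat.pow_pos hq.pos
  have hM : 2 * q ^ k + 1 ≤ M := by
    have e1 : q ^ k * 3 ≤ q ^ k * (t * (q + 1)) := Nat.mul_le_mul_left _ h13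
    omega
  obtain ⟨z⟩ : Nonempty (Fin (2 * t)) := ⟨⟨0, by omega⟩⟩
  obtain ⟨l, r, F, hl, hr, hF⟩ := hard_input (k := k) z hM h12 hNu
  choose Near hNc hB using fun b => hNear (F b) (hF b).1
  have hfin := core (ι := Fin k → ZMod q) (T := T) (X := N * L ^ a) ht0 htq h4
    (fun c j => probe (l c) (r j)) (fun c j => out (l c) (r j)) (fun b => mem (F b)) z
    (fun b c j => by rw [hcor (F b) (hF b).1 (l c) (r j)]; exact (hF b).2 c j) Near hNc
    (fun b => Finset.univ.filter fun p => ∃ s < T, ∃ s' < T,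
      probe (l p.1) (r p.2) (run (probe (l p.1) (r p.2)) (mem (F b)) s) ∉ Near b ∧
      probe (l p.1) (r p.2) (run (probe (l p.1) (r p.2)) (mem (F b)) s') ∉ Near b ∧
      probe (l p.1) (r p.2) (run (probe (l p.1) (r p.2)) (mem (F b)) s) ≠
        probe (l p.1) (r p.2) (run (probe (l p.1) (r p.2)) (mem (F b)) s'))
    ?_ ?_ (probe (l 0) (r 0) []) (by rw [Fintype.card_fun, ZMod.card, Fintype.card_fin]) hSW hΛ1
    h5 h6 h7 h8 h9 h10 h11
  · have e1 : N ^ 2 * (128 * (16 * Λ)) < S * L ^ c * (128 * (16 * Λ)) := by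
      calc N ^ 2 * (128 * (16 * Λ)) ≤ q ^ k * μ * L ^ c := h14
        _ < 128 * (S * (16 * Λ)) * L ^ c := Nat.mul_lt_mul_of_pos_right hfin hLc
        _ = S * L ^ c * (128 * (16 * Λ)) := by ring
    have e2 := Nat.lt_of_mul_lt_mul_right e1
    omega
  · intro b
    have e1 := hB b ((Finset.univ.filter fun p : (Fin k → ZMod q) × (Fin k → ZMod q) =>
      ∃ s < T, ∃ s' < T,
      probe (l p.1) (r p.2) (run (probe (l p.1) (r p.2)) (mem (F b)) s) ∉ Near b ∧
      probe (l p.1) (r p.2) (run (probe (l p.1) (r p.2)) (mem (F b)) s') ∉ Near b ∧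
      probe (l p.1) (r p.2) (run (probe (l p.1) (r p.2)) (mem (F b)) s) ≠
        probe (l p.1) (r p.2) (run (probe (l p.1) (r p.2)) (mem (F b)) s')).image
      fun p => (l p.1, r p.2)) (by
        intro p hp
        obtain ⟨p', hp', rfl⟩ := Finset.mem_image.1 hp
        exact (Finset.mem_filter.1 hp').2)
    rw [Finset.card_image_of_injective _ (by
      intro p p' h
      have h1 := Prod.ext_iff.1 h
      exact Prod.ext (hl h1.1) (hr h1.2))] at e1
    refine Nat.le_of_mul_le_mul_right (c := L ^ c) ?_ hLc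
    calc _ = 256 * (_ * L ^ c) := by rw [mul_assoc]
      _ ≤ 256 * N ^ 2 := Nat.mul_le_mul_left _ e1
      _ ≤ q ^ k * q ^ k * L ^ c := h15
  · intro b c j hcj s hs s' hs' hN1 hN2
    by_contra hne
    exact hcj (Finset.mem_filter.2 ⟨Finset.mem_univ _, s, hs, s', hs', hN1, hN2, hne⟩)

end Pool.Agent.OneFar
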