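import Mathlib

set_option autoImplicit false

namespace Pool.Agent.OneFar

open Finset

section

variable {q : ℕ} [Fact q.Prime]

/-- the value at `x` of the polynomial with the coefficients `c` -/
def val {k : ℕ} (c : Fin k → ZMod q) (x : ZMod q) : ZMod q := ∑ s, c s * x ^ (s : ℕ)

/-- the graph of the polynomial `c` over the points `0, …, t - 1` -/
def gr (t : ℕ) {k : ℕ} (c : Fin k → ZMod q) : Finset (Fin t × ZMod q) :=
  Finset.univ.image fun l : Fin t => (l, val c ((l : ℕ) : ZMod q))

theorem mem_gr {t k : ℕ} (c : Fin k → ZMod q) (e : Fin t × ZMod q) :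
    e ∈ gr t c ↔ val c ((e.1 : ℕ) : ZMod q) = e.2 := by
  simp only [gr, Finset.mem_image, Finset.mem_univ, true_and]
  constructor
  · rintro ⟨l, rfl⟩; rfl
  · intro h; exact ⟨e.1, Prod.ext rfl h⟩

theorem card_gr (t : ℕ) {k : ℕ} (c : Fin k → ZMod q) : (gr t c).card = t := by
  rw [gr, Finset.card_image_of_injective _ (fun a b h => (Prod.ext_iff.1 h).1), Finset.card_univ,
    Fintype.card_fin]

theorem cast_inj {t : ℕ} (ht : t ≤ q) : Function.Injective fun l : Fin t => ((l : ℕ) : ZMod q) := by
  intro a b h
  simp only at h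
  rw [ZMod.natCast_eq_natCast_iff', Nat.mod_eq_of_lt (lt_of_lt_of_le a.2 ht),
    Nat.mod_eq_of_lt (lt_of_lt_of_le b.2 ht)] at h
  exact Fin.ext h

/-- interpolation: at most `q ^ r` polynomials of degree less than `h + r` have given values at `h`
points -/
theorem card_fiber {h r : ℕ} (σ : Fin h → ZMod q) (hσ : Function.Injective σ) (y : Fin h → ZMod q) :
    (Finset.univ.filter fun c : Fin (h + r) → ZMod q => ∀ s, val c (σ s) = y s).card ≤ q ^ r := by
  have hcard : Fintype.card (Fin r → ZMod q) = q ^ r := by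
    rw [Fintype.card_fun, ZMod.card, Fintype.card_fin]
  rw [← hcard, ← Finset.card_univ]
  refine Finset.card_le_card_of_injOn (fun c s => c (Fin.natAdd h s)) (fun _ _ => Finset.mem_univ _) ?_
  intro c hc c' hc' htop
  simp only [Finset.coe_filter, Finset.mem_univ, true_and, Set.mem_ofPred_eq] at hc hc'
  have hlow : (fun s : Fin h => c (Fin.castAdd r s) - c' (Fin.castAdd r s)) = 0 := by
    have hdet : (Matrix.vandermonde σ).det ≠ 0 := Matrix.det_vandermonde_ne_zero_iff.2 hσ
    refine Matrix.eq_zero_of_mulVec_eq_zero hdet ?_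
    funext i
    have e1 := hc i
    have e2 := hc' i
    rw [← e2, val, val, Fin.sum_univ_add, Fin.sum_univ_add] at e1
    have e3 : ∀ s : Fin r, c (Fin.natAdd h s) = c' (Fin.natAdd h s) := fun s => congrFun htop s
    simp only [e3, Fin.val_castAdd, Fin.val_natAdd, add_left_inj] at e1
    simp only [Matrix.mulVec, dotProduct, Matrix.vandermonde_apply, Pi.zero_apply]
    have e4 : ∑ x : Fin h, σ i ^ (x : ℕ) * (c (Fin.castAdd r x) - c' (Fin.castAdd r x)) =
        ∑ x : Fin h, c (Fin.castAdd r x) * σ i ^ (x : ℕ) -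
          ∑ x : Fin h, c' (Fin.castAdd r x) * σ i ^ (x : ℕ) := by
      rw [← Finset.sum_sub_distrib]
      exact Finset.sum_congr rfl fun x _ => by ring
    rw [e4, e1, sub_self]
  funext s
  refine Fin.addCases (fun s => ?_) (fun s => ?_) s
  · exact sub_eq_zero.1 (congrFun hlow s)
  · exact congrFun htop s

/-- two polynomials of degree less than `k` agree at less than `k` points -/
theorem agree {t k : ℕ} (ht : t ≤ q) {c c' : Fin k → ZMod q} (hc : c ≠ c') :
    (gr t c ∩ gr t c').card < k := by
  by_contra hcon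
  push Not at hcon
  obtain ⟨I, hI, hIk⟩ := Finset.exists_subset_card_eq hcon
  let e : Fin k ≃ I := (Finset.equivFinOfCardEq hIk).symm
  let σ : Fin k → ZMod q := fun s => (((e s).1.1 : ℕ) : ZMod q)
  have hmem : ∀ s, (e s).1 ∈ gr t c ∧ (e s).1 ∈ gr t c' := fun s =>
    Finset.mem_inter.1 (hI (e s).2)
  have hσ : Function.Injective σ := by
    intro a b hab
    have h1 : (e a).1.1 = (e b).1.1 := cast_inj ht hab
    have h2 : (e a).1 = (e b).1 := by
      refine Prod.ext h1 ?_
      rw [← (mem_gr c _).1 (hmem a).1, ← (mem_gr c _).1 (hmem b).1, h1]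
    exact e.injective (Subtype.ext h2)
  have h0 : (Finset.univ.filter fun d : Fin (k + 0) → ZMod q =>
      ∀ s, val d (σ s) = (e s).1.2).card ≤ q ^ 0 := card_fiber σ hσ _
  rw [pow_zero, Finset.card_le_one] at h0
  refine hc (h0 c ?_ c' ?_)
  · rw [Finset.mem_filter]
    exact ⟨Finset.mem_univ _, fun s => (mem_gr c _).1 (hmem s).1⟩
  · rw [Finset.mem_filter]
    exact ⟨Finset.mem_univ _, fun s => (mem_gr c' _).1 (hmem s).2⟩

/-- few graphs have half of their points in a set of density at most `1 / 8` -/
theorem few_bad {t k : ℕ} (ht : t ≤ q) (hk : 4 * k ≤ t) (W : Finset (Fin t × ZMod q))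
    (hW : 8 * W.card ≤ t * q) (ht0 : 0 < t) :
    (Finset.univ.filter fun c : Fin k → ZMod q => t ≤ 2 * (gr t c ∩ W).card).card * 2 ^ k ≤
      q ^ k := by
  classical
  set bad := Finset.univ.filter fun c : Fin k → ZMod q => t ≤ 2 * (gr t c ∩ W).card with hbad
  have hq : 0 < q := lt_of_lt_of_le ht0 ht
  -- pairs of a bad polynomial and an ordered `k`-tuple of points of its graph in `W`
  have hlow : bad.card * t ^ k ≤ 4 ^ k *
      (bad.sigma fun c => (Finset.univ : Finset (Fin k ↪ (gr t c ∩ W : Finset _)))).card := by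
    rw [Finset.card_sigma, Finset.mul_sum, ← smul_eq_mul, ← Finset.sum_const]
    refine Finset.sum_le_sum fun c hc => ?_
    rw [Finset.card_univ, Fintype.card_embedding_eq, Fintype.card_fin, Fintype.card_coe]
    have hc' : t ≤ 2 * (gr t c ∩ W).card := by
      rw [hbad, Finset.mem_filter] at hc; exact hc.2
    have h1 : ((gr t c ∩ W).card + 1 - k) ^ k ≤ (gr t c ∩ W).card.descFactorial k :=
      Nat.pow_sub_le_descFactorial _ _
    have h2 : t ≤ 4 * ((gr t c ∩ W).card + 1 - k) := by omega
    calc t ^ k ≤ (4 * ((gr t c ∩ W).card + 1 - k)) ^ k := Nat.pow_le_pow_left h2 k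
      _ = 4 ^ k * ((gr t c ∩ W).card + 1 - k) ^ k := mul_pow _ _ _
      _ ≤ _ := Nat.mul_le_mul_left _ h1
  have hup : (bad.sigma fun c => (Finset.univ : Finset (Fin k ↪ (gr t c ∩ W : Finset _)))).card ≤
      W.card ^ k := by
    have h1 : (Finset.univ : Finset (Fin k → W)).card = W.card ^ k := by
      rw [Finset.card_univ, Fintype.card_fun, Fintype.card_coe, Fintype.card_fin]
    rw [← h1]
    refine Finset.card_le_card_of_injOn
      (fun p s => ⟨(p.2 s).1, (Finset.mem_inter.1 (p.2 s).2).2⟩) (fun _ _ => Finset.mem_univ _) ?_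
    rintro ⟨c, φ⟩ - ⟨c', φ'⟩ - hpp
    have hval : ∀ s, (φ s).1 = (φ' s).1 := fun s => congrArg Subtype.val (congrFun hpp s)
    have hcc : c = c' := by
      by_contra hne
      have h2 := agree ht hne
      have h3 : k ≤ (gr t c ∩ gr t c').card := by
        have h4 : (Finset.univ : Finset (Fin k)).card ≤ (gr t c ∩ gr t c').card := by
          refine Finset.card_le_card_of_injOn (fun s => (φ s).1) (fun s _ => ?_) ?_
          · simp only [Finset.coe_inter, Set.mem_inter_iff, Finset.mem_coe]
            refine ⟨(Finset.mem_inter.1 (φ s).2).1, ?_⟩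
            rw [hval s]
            exact (Finset.mem_inter.1 (φ' s).2).1
          · intro a _ b _ hab
            exact φ.injective (Subtype.ext hab)
        rwa [Finset.card_univ, Fintype.card_fin] at h4
      omega
    subst hcc
    have : φ = φ' := by
      ext s
      · exact congrArg (fun z => ((z : Fin t × ZMod q).1 : ℕ)) (hval s)
      · exact congrArg (fun z => (z : Fin t × ZMod q).2) (hval s)
    rw [this]
  have htq : 0 < (t * q) ^ k := by positivity
  have hmain : bad.card * 2 ^ k * (t * q) ^ k ≤ q ^ k * (t * q) ^ k := by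
    calc bad.card * 2 ^ k * (t * q) ^ k = (bad.card * t ^ k) * (2 ^ k * q ^ k) := by
          rw [mul_pow]; ring
      _ ≤ (4 ^ k * W.card ^ k) * (2 ^ k * q ^ k) :=
          Nat.mul_le_mul_right _ (hlow.trans (Nat.mul_le_mul_left _ hup))
      _ = q ^ k * (8 * W.card) ^ k := by
          rw [mul_pow]
          have : (8 : ℕ) ^ k = 4 ^ k * 2 ^ k := by rw [← mul_pow]; norm_num
          rw [this]; ring
      _ ≤ q ^ k * (t * q) ^ k := Nat.mul_le_mul_left _ (Nat.pow_le_pow_left hW k)
  exact Nat.le_of_mul_le_mul_right hmain htq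

/-- the graphs of few polynomials, each with at least half of its points outside of `W`, have many
points outside of `W` -/
theorem many_new {t k w : ℕ} (ht : t ≤ q) (hk : 4 * (w * k) ≤ t) (W : Finset (Fin t × ZMod q))
    (I : Finset (Fin k → ZMod q)) (hI : I.card ≤ w) (hIW : ∀ c ∈ I, 2 * (gr t c ∩ W).card < t) :
    I.card * t ≤ 4 * ((I.biUnion fun c => gr t c) \ W).card := by
  classical
  induction I using Finset.induction_on with
  | empty => simp
  | insert c I hc ih =>
    have hIw : I.card ≤ w := by
      rw [Finset.card_insert_of_notMem hc] at hI; omega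
    have ih' := ih hIw fun d hd => hIW d (Finset.mem_insert_of_mem hd)
    rw [Finset.card_insert_of_notMem hc, Finset.biUnion_insert]
    have hinter : (gr t c ∩ I.biUnion fun d => gr t d).card ≤ I.card * k := by
      rw [Finset.inter_biUnion]
      refine Finset.card_biUnion_le.trans ?_
      rw [← smul_eq_mul, ← Finset.sum_const]
      refine Finset.sum_le_sum fun d hd => ?_
      have hcd : c ≠ d := fun h => hc (h ▸ hd)
      exact (agree ht hcd).le
    have hnew : t ≤ 4 * ((gr t c \ W) \ I.biUnion fun d => gr t d).card := by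
      have h1 : (gr t c).card ≤ (gr t c ∩ W).card + (gr t c ∩ I.biUnion fun d => gr t d).card +
          ((gr t c \ W) \ I.biUnion fun d => gr t d).card := by
        have h2 : gr t c ⊆ (gr t c ∩ W ∪ (gr t c ∩ I.biUnion fun d => gr t d)) ∪
            ((gr t c \ W) \ I.biUnion fun d => gr t d) := by
          intro e he
          by_cases h3 : e ∈ W
          · exact Finset.mem_union_left _ (Finset.mem_union_left _ (Finset.mem_inter.2 ⟨he, h3⟩))
          by_cases h4 : e ∈ I.biUnion fun d => gr t d
          · exact Finset.mem_union_left _ (Finset.mem_union_right _ (Finset.mem_inter.2 ⟨he, h4⟩))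
          · exact Finset.mem_union_right _
              (Finset.mem_sdiff.2 ⟨Finset.mem_sdiff.2 ⟨he, h3⟩, h4⟩)
        refine (Finset.card_le_card h2).trans ((Finset.card_union_le _ _).trans ?_)
        exact Nat.add_le_add_right (Finset.card_union_le _ _) _
      rw [card_gr] at h1
      have h5 := hIW c (Finset.mem_insert_self _ _)
      have h6 : I.card * k ≤ w * k := Nat.mul_le_mul_right _ hIw
      omega
    have hdis : Disjoint ((gr t c \ W) \ I.biUnion fun d => gr t d)
        ((I.biUnion fun d => gr t d) \ W) := by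
      rw [Finset.disjoint_left]
      intro e he he'
      exact (Finset.mem_sdiff.1 he).2 (Finset.mem_sdiff.1 he').1
    have hsub : ((gr t c \ W) \ I.biUnion fun d => gr t d) ∪ ((I.biUnion fun d => gr t d) \ W) ⊆
        (gr t c ∪ I.biUnion fun d => gr t d) \ W := by
      intro e he
      rcases Finset.mem_union.1 he with h | h
      · have h7 := Finset.mem_sdiff.1 (Finset.mem_sdiff.1 h).1
        exact Finset.mem_sdiff.2 ⟨Finset.mem_union_left _ h7.1, h7.2⟩
      · have h7 := Finset.mem_sdiff.1 h
        exact Finset.mem_sdiff.2 ⟨Finset.mem_union_right _ h7.1, h7.2⟩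
    have hfin := Finset.card_le_card hsub
    rw [Finset.card_union_of_disjoint hdis] at hfin
    have : (I.card + 1) * t = I.card * t + t := by ring
    omega

end

end Pool.Agent.OneFar
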